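import Pool.Agent.X186.MJ.G

/-!
# Number fields near cyclotomic fields: examples
-/

set_option autoImplicit false

open Finset Polynomial Module NumberField IntermediateField

namespace Pool.Agent.X186.MJ

/-- The number field `k` is a subfield of a number field `E` which has degree at most `B` over a
cyclotomic field `ℚ (ζ)` contained in `E`. -/
def NearCyclotomic (B : ℕ) (k : Type) [Field k] [NumberField k] : Prop :=
  ∃ (E : Type) (_ : Field E) (_ : NumberField E) (_ : Algebra k E) (m : ℕ) (ζ : E),
    0 < m ∧ IsPrimitiveRoot ζ m ∧ finrank (IntermediateField.adjoin ℚ {ζ}) E ≤ B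

/-- subfields of cyclotomic fields -/
theorem near_one (k E : Type) [Field k] [NumberField k] [Field E] [NumberField E] [Algebra k E]
    (m : ℕ) (hm : 0 < m) [IsCyclotomicExtension {m} ℚ E] : NearCyclotomic 1 k := by
  have hne : NeZero m := ⟨hm.ne'⟩
  have hz := IsCyclotomicExtension.zeta_spec m ℚ E
  refine ⟨E, inferInstance, inferInstance, inferInstance, m, IsCyclotomicExtension.zeta m ℚ E, hm,
    hz, ?_⟩
  have h1 : IntermediateField.adjoin ℚ {IsCyclotomicExtension.zeta m ℚ E} = ⊤ :=
    IntermediateField.adjoin_eq_top_of_algebra ℚ _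
      (IsCyclotomicExtension.adjoin_primitive_root_eq_top hz)
  rw [h1]
  exact le_of_eq IntermediateField.finrank_top

/-- extensions of bounded degree -/
theorem near_ext (k L : Type) [Field k] [NumberField k] [Field L] [NumberField L] [Algebra k L]
    (B d : ℕ) (hd : finrank k L ≤ d) (h : NearCyclotomic B k) : NearCyclotomic (d * B) L := by
  obtain ⟨E, _, _, _, m, ζ, hm, hζ, hB⟩ := h
  obtain ⟨N, _, _, _, iL, iE, -, hi⟩ := exists_galois k L E E
  have hfd : FiniteDimensional k L := Module.Finite.of_restrictScalars_finite ℚ k L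
  obtain ⟨θ, hθ⟩ := Field.exists_primitive_element k L
  let _ : Algebra E N := iE.toAlgebra
  let E' : IntermediateField E N := IntermediateField.adjoin E {iL θ}
  have hθi : IsIntegral k θ := Algebra.IsIntegral.isIntegral θ
  -- the algebra structure
  let _ : Algebra k E' := ((algebraMap E E').comp (algebraMap k E)).toAlgebra
  let _ : Algebra k N := (iE.comp (algebraMap k E)).toAlgebra
  let jL : L →ₐ[k] N :=
    { toRingHom := iL
      commutes' := fun x => RingHom.congr_fun hi x }
  have hmem : ∀ x : L, iL x ∈ E' := by
    intro x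
    have hx : x ∈ IntermediateField.adjoin k {θ} := by rw [hθ]; exact IntermediateField.mem_top
    have hx2 : x ∈ Algebra.adjoin k {θ} := by
      rwa [← IntermediateField.adjoin_simple_toSubalgebra_of_isAlgebraic hθi.isAlgebraic,
        IntermediateField.mem_toSubalgebra]
    rw [Algebra.adjoin_singleton_eq_range_aeval] at hx2
    obtain ⟨P, hP⟩ := hx2
    have h1 : iL x = eval₂ (iE.comp (algebraMap k E)) (iL θ) P := by
      rw [← hP, ← hi]
      exact hom_eval₂ P (algebraMap k L) iL θ
    rw [h1, eval₂_eq_sum_range]
    refine sum_mem fun i _ => mul_mem ?_ (pow_mem ?_ i)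
    · exact E'.algebraMap_mem (algebraMap k E (P.coeff i))
    · exact IntermediateField.mem_adjoin_simple_self E _
  have hEN : FiniteDimensional E N := Module.Finite.of_restrictScalars_finite ℚ E N
  have hE'N : FiniteDimensional E E' := inferInstance
  have hchar : CharZero E' := charZero_of_injective_algebraMap (algebraMap E E').injective
  have hnf : NumberField E' := NumberField.of_module_finite E E'
  have hdeg : finrank E E' ≤ d := by
    have h1 : IsIntegral E (iL θ) := Algebra.IsIntegral.isIntegral _
    rw [IntermediateField.adjoin.finrank h1]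
    have h2 : aeval (iL θ) ((minpoly k θ).map (algebraMap k E)) = 0 := by
      rw [aeval_def, eval₂_map]
      have h3 : (algebraMap E N).comp (algebraMap k E) = iL.comp (algebraMap k L) := hi.symm
      rw [h3]
      have h4 := hom_eval₂ (minpoly k θ) (algebraMap k L) iL θ
      rw [← h4]
      have h5 : eval₂ (algebraMap k L) θ (minpoly k θ) = 0 := minpoly.aeval k θ
      rw [h5, map_zero]
    refine (natDegree_le_of_dvd (minpoly.dvd E _ h2) ((minpoly.monic hθi).map _).ne_zero).trans ?_
    rw [(minpoly.monic hθi).natDegree_map]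
    exact (minpoly.natDegree_le θ).trans hd
  let _ : Algebra L E' := (iL.codRestrict E'.toSubring hmem).toAlgebra
  refine ⟨E', inferInstance, inferInstance, inferInstance, m, algebraMap E E' ζ, hm,
    hζ.map_of_injective (algebraMap E E').injective, ?_⟩
  have hζi : IsIntegral ℚ ζ := Algebra.IsIntegral.isIntegral ζ
  have hζi' : IsIntegral ℚ (algebraMap E E' ζ) := Algebra.IsIntegral.isIntegral _
  have h1 : finrank ℚ (IntermediateField.adjoin ℚ {ζ}) =
      finrank ℚ (IntermediateField.adjoin ℚ {algebraMap E E' ζ}) := by
    rw [IntermediateField.adjoin.finrank hζi, IntermediateField.adjoin.finrank hζi',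
      minpoly.algebraMap_eq (algebraMap E E').injective]
  have h2 := Module.finrank_mul_finrank ℚ (IntermediateField.adjoin ℚ {ζ}) E
  have h3 := Module.finrank_mul_finrank ℚ (IntermediateField.adjoin ℚ {algebraMap E E' ζ}) E'
  have h4 := Module.finrank_mul_finrank ℚ E E'
  have h5 : 0 < finrank ℚ (IntermediateField.adjoin ℚ {ζ}) := finrank_pos
  rw [← h1, ← h4, ← h2, mul_assoc] at h3
  have h6 := Nat.eq_of_mul_eq_mul_left h5 h3
  rw [h6, mul_comm]
  exact Nat.mul_le_mul hdeg hB

end Pool.Agent.X186.MJ
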