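import Pool.Agent.X186.MJ.E

/-!
# Lower bounds for conjugates outside the unit circle over fields near cyclotomic fields
-/

set_option autoImplicit false

open Finset Polynomial NumberField Module

namespace Pool.Agent.X186.MJ

open Pool.Agent.H225R3.Marg

lemma exists_prim (K : Type) [Field K] [CharZero K] (p : ℕ) [NeZero p] :
    ∃ z : CyclotomicField p K, IsPrimitiveRoot z p := by
  have : NeZero (p : K) := ⟨by exact_mod_cast NeZero.ne p⟩
  exact ⟨_, IsCyclotomicExtension.zeta_spec p K _⟩

/-- the number of conjugates over the cyclotomic field -/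
lemma card_orb_le {k L E N : Type} [Field k] [NumberField k] [Field L] [NumberField L]
    [Algebra k L] [Field E] [NumberField E] [Algebra k E] [Field N] [NumberField N]
    (iL : L →+* N) (iE : E →+* N) (hi : iL.comp (algebraMap k L) = iE.comp (algebraMap k E))
    (ζ : E) (x : L) (ζ' α : 𝓞 N) (hζ' : (ζ' : N) = iE ζ) (hα : (α : N) = iL x) (B n : ℕ)
    (hB : finrank (IntermediateField.adjoin ℚ {ζ}) E ≤ B) (hn : finrank k L ≤ n) :
    (orb ζ' α).card ≤ n * B := by
  classical
  have hfd : FiniteDimensional k L := Module.Finite.of_restrictScalars_finite ℚ k L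
  have hx : IsIntegral k x := Algebra.IsIntegral.isIntegral x
  have hfin : Finite (E →+* N) := by
    obtain ⟨σ0⟩ : Nonempty (N →+* ℂ) := inferInstance
    refine Finite.of_injective (fun j : E →+* N => σ0.comp j) ?_
    intro j j' h
    ext y
    exact σ0.injective (RingHom.congr_fun h y)
  have := Fintype.ofFinite (E →+* N)
  set J : Finset (E →+* N) := univ.filter (fun j => j ζ = iE ζ) with hJ
  set rt : (E →+* N) → Finset N := fun j =>
    ((minpoly k x).map (j.comp (algebraMap k E))).roots.toFinset with hrt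
  have hsub : (orb ζ' α).image (fun y : 𝓞 N => (y : N)) ⊆ J.biUnion rt := by
    intro y hy
    rw [Finset.mem_image] at hy
    obtain ⟨β, hβ, rfl⟩ := hy
    obtain ⟨g, hg, rfl⟩ := (mem_orb _ _ _).mp hβ
    rw [Finset.mem_biUnion]
    refine ⟨(g.toRingEquiv : N →+* N).comp iE, ?_, ?_⟩
    · rw [hJ, Finset.mem_filter]
      refine ⟨Finset.mem_univ _, ?_⟩
      have h1 := congrArg (fun y : 𝓞 N => (y : N)) hg
      simp only [act_coe, hζ'] at h1
      exact h1
    · rw [hrt, Multiset.mem_toFinset, mem_roots]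
      · rw [IsRoot, eval_map, act_coe, hα]
        have h2 : ((g.toRingEquiv : N →+* N).comp iE).comp (algebraMap k E) =
            (g.toRingEquiv : N →+* N).comp (iL.comp (algebraMap k L)) := by
          rw [RingHom.comp_assoc, ← hi]
        rw [h2]
        have h3 : eval₂ (algebraMap k L) x (minpoly k x) = 0 := minpoly.aeval k x
        have h4 := congrArg (fun y => (g.toRingEquiv : N →+* N) (iL y)) h3
        simp only [hom_eval₂, map_zero] at h4
        exact h4
      · exact ((minpoly.monic hx).map _).ne_zero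
  have hcard : (orb ζ' α).card = ((orb ζ' α).image (fun y : 𝓞 N => (y : N))).card := by
    rw [Finset.card_image_of_injective _ RingOfIntegers.coe_injective]
  rw [hcard]
  refine (Finset.card_le_card hsub).trans ?_
  refine Finset.card_biUnion_le.trans ?_
  have h5 : ∀ j ∈ J, (rt j).card ≤ n := by
    intro j _
    refine (Multiset.toFinset_card_le _).trans ((card_roots' _).trans ?_)
    rw [(minpoly.monic hx).natDegree_map]
    exact (minpoly.natDegree_le x).trans hn
  refine (Finset.sum_le_card_nsmul J _ n h5).trans ?_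
  rw [smul_eq_mul, mul_comm]
  refine Nat.mul_le_mul_left n ?_
  refine (card_hom E N ζ iE J ?_).trans hB
  intro j hj
  exact (Finset.mem_filter.mp hj).2

/-- **The lower bound.** -/
theorem low {k L E : Type} [Field k] [NumberField k] [Field L] [NumberField L]
    [Algebra k L] [Field E] [NumberField E] [Algebra k E] (m : ℕ) (hm : 0 < m) (ζ : E)
    (hζ : IsPrimitiveRoot ζ m) (B n : ℕ)
    (hB : finrank (IntermediateField.adjoin ℚ {ζ}) E ≤ B) (hn : finrank k L ≤ n)
    (S : Finset (k →+* ℂ)) (x : L) (R : ℝ) (hx0 : x ≠ 0) (hxi : IsIntegral ℤ x)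
    (hroot : ∀ j : ℕ, 0 < j → x ^ j ≠ 1) (hR : 1 ≤ R)
    (hout : ∀ τ : L →+* ℂ, τ.comp (algebraMap k L) ∉ S → ‖τ x‖ ≤ 1)
    (hin : ∀ τ : L →+* ℂ, ‖τ x‖ ≤ R) :
    (finrank ℚ k : ℝ) * Real.log 2 ≤ 32 * ((n * B : ℕ) : ℝ) ^ 2 * S.card * Real.log R := by
  classical
  have hD1 : 0 < n * B := by
    have hfd : FiniteDimensional k L := Module.Finite.of_restrictScalars_finite ℚ k L
    have hfd2 : FiniteDimensional (IntermediateField.adjoin ℚ {ζ}) E :=
      FiniteDimensional.right ℚ _ E
    have h1 : 0 < finrank k L := finrank_pos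
    have h2 : 0 < finrank (IntermediateField.adjoin ℚ {ζ}) E := finrank_pos
    exact Nat.mul_pos (h1.trans_le hn) (h2.trans_le hB)
  -- the prime number
  obtain ⟨p, hpp, hp1, hp2⟩ := Nat.exists_prime_lt_and_le_two_mul (4 * (n * B)) (by omega)
  have hfact : Fact p.Prime := ⟨hpp⟩
  have hpne : p ≠ 2 := by omega
  have hpnz : NeZero p := ⟨hpp.ne_zero⟩
  obtain ⟨N, _, _, _, iL, iE, iC, hi⟩ := exists_galois k L E (CyclotomicField p ℚ)
  -- the elements of the ring of integers
  have hαint : IsIntegral ℤ (iL x) := hxi.map iL.toIntAlgHom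
  have hζint : IsIntegral ℤ (iE ζ) :=
    (IsIntegral.of_pow hm (by rw [hζ.pow_eq_one]; exact isIntegral_one)).map iE.toIntAlgHom
  let α : 𝓞 N := ⟨iL x, hαint⟩
  let ζ' : 𝓞 N := ⟨iE ζ, hζint⟩
  have hα : (α : N) = iL x := rfl
  have hζ'c : (ζ' : N) = iE ζ := rfl
  have hζ' : IsPrimitiveRoot ζ' m := by
    have h1 : IsPrimitiveRoot (algebraMap (𝓞 N) N ζ') m := hζ.map_of_injective iE.injective
    exact IsPrimitiveRoot.of_map_of_injective (f := algebraMap (𝓞 N) N) h1
      RingOfIntegers.coe_injective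
  have hα0 : α ≠ 0 := by
    intro h
    have h1 : iL x = 0 := by rw [← hα, h]; rfl
    exact hx0 ((map_eq_zero iL).mp h1)
  have hαroot : ∀ j : ℕ, 0 < j → α ^ j ≠ 1 := by
    intro j hj h
    have h2 : (iL x) ^ j = 1 := by
      have h1 : algebraMap (𝓞 N) N (α ^ j) = 1 := by rw [h, map_one]
      rw [map_pow] at h1
      exact h1
    rw [← map_pow] at h2
    exact hroot j hj (iL.injective (by rw [h2, map_one]))
  have hcard := card_orb_le iL iE hi ζ x ζ' α hζ'c hα B n hB hn
  set D := n * B with hD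
  -- the root of unity
  obtain ⟨z, hz⟩ := exists_prim ℚ p
  have hξint : IsIntegral ℤ (iC z) :=
    (IsIntegral.of_pow hpp.pos (by rw [hz.pow_eq_one]; exact isIntegral_one)).map iC.toIntAlgHom
  let ξ : 𝓞 N := ⟨_, hξint⟩
  have hξ : IsPrimitiveRoot ξ p := by
    have h1 : IsPrimitiveRoot (algebraMap (𝓞 N) N ξ) p := hz.map_of_injective iC.injective
    exact IsPrimitiveRoot.of_map_of_injective (f := algebraMap (𝓞 N) N) h1
      RingOfIntegers.coe_injective
  have hdesc := bound p hpne D (by omega) m hm ζ' α ξ hζ' hξ hα0 hαroot hcard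
  -- the height
  let _ : Algebra k N := (iL.comp (algebraMap k L)).toAlgebra
  have hmap : algebraMap k N = iL.comp (algebraMap k L) := rfl
  have hh : hW α ≤ (S.card : ℝ) * finrank k N * Real.log R := by
    have h1 : ∀ σ : N →+* ℂ, Real.log (max 1 ‖σ (α : N)‖) ≤
        if σ.comp (algebraMap k N) ∈ S then Real.log R else 0 := by
      intro σ
      have h2 : σ (α : N) = (σ.comp iL) x := rfl
      split_ifs with h
      · apply Real.log_le_log (by positivity)
        rw [h2]
        exact max_le hR (hin _)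
      · have h3 : ‖σ (α : N)‖ ≤ 1 := by
          rw [h2]
          apply hout
          rwa [RingHom.comp_assoc, ← hmap]
        rw [max_eq_left h3, Real.log_one]
    unfold hW
    refine (Finset.sum_le_sum fun σ _ => h1 σ).trans ?_
    rw [← Finset.sum_filter, Finset.sum_const, card_over, nsmul_eq_mul]
    push_cast
    exact le_rfl
  have htow : (finrank ℚ N : ℝ) = finrank ℚ k * finrank k N := by
    exact_mod_cast (Module.finrank_mul_finrank ℚ k N).symm
  have hfd : FiniteDimensional k N := Module.Finite.of_restrictScalars_finite ℚ k N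
  have hkN : (0 : ℝ) < finrank k N := by exact_mod_cast (finrank_pos : 0 < finrank k N)
  have hk0 : (0 : ℝ) ≤ finrank ℚ k := Nat.cast_nonneg _
  have hlog2 : 0 < Real.log 2 := Real.log_pos (by norm_num)
  have hlogR : 0 ≤ Real.log R := Real.log_nonneg hR
  have hDR : (0 : ℝ) < D := by exact_mod_cast hD1
  have hlogp : Real.log 2 ≤ Real.log p - Real.log (2 * D) := by
    have h1 : (4 * D : ℝ) ≤ p := by exact_mod_cast hp1.le
    have h2 := Real.log_le_log (by positivity) h1
    have h3 : (4 * D : ℝ) = 2 * (2 * D) := by ring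
    rw [h3, Real.log_mul (by norm_num) (by positivity)] at h2
    linarith
  have hple : (p : ℝ) ≤ 8 * D := by
    have h1 : p ≤ 8 * D := by omega
    exact_mod_cast h1
  have hS0 : (0 : ℝ) ≤ S.card := Nat.cast_nonneg _
  have hα' : 0 ≤ hW α := hW_nonneg α
  have h1 : (finrank ℚ N : ℝ) * Real.log 2 ≤ 32 * (D : ℝ) ^ 2 * hW α := by
    have hN0 : (0 : ℝ) ≤ finrank ℚ N := Nat.cast_nonneg _
    have h2 := mul_le_mul_of_nonneg_left hlogp hN0
    have h3 : 2 * (2 * (D : ℝ)) * p * hW α ≤ 2 * (2 * (D : ℝ)) * (8 * D) * hW α := by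
      apply mul_le_mul_of_nonneg_right _ hα'
      exact mul_le_mul_of_nonneg_left hple (by positivity)
    calc (finrank ℚ N : ℝ) * Real.log 2 ≤ 2 * (2 * (D : ℝ)) * p * hW α := h2.trans hdesc
      _ ≤ 2 * (2 * (D : ℝ)) * (8 * D) * hW α := h3
      _ = _ := by ring
  have h2 : (finrank ℚ N : ℝ) * Real.log 2 ≤
      32 * (D : ℝ) ^ 2 * ((S.card : ℝ) * finrank k N * Real.log R) :=
    h1.trans (mul_le_mul_of_nonneg_left hh (by positivity))
  rw [htow] at h2
  have h3 : (finrank k N : ℝ) * (finrank ℚ k * Real.log 2) ≤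
      finrank k N * (32 * (D : ℝ) ^ 2 * S.card * Real.log R) := by
    calc (finrank k N : ℝ) * (finrank ℚ k * Real.log 2)
        = finrank ℚ k * finrank k N * Real.log 2 := by ring
      _ ≤ 32 * (D : ℝ) ^ 2 * ((S.card : ℝ) * finrank k N * Real.log R) := h2
      _ = _ := by ring
  exact le_of_mul_le_mul_left h3 hkN

end Pool.Agent.X186.MJ
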