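import Pool.Agent.X186.MJ.M
import Pool.Agent.TH53.UG5

/-!
# Growth gaps for eigenvalues near cyclotomic fields
-/

set_option autoImplicit false

open Polynomial Finset Module
open scoped TensorProduct commutatorElement

namespace Pool.Agent.X186.MJ

open Pool.Agent.TH53.UG Pool.Agent.W963.GE

universe u

/-- numerical bound -/
lemma base_cyc {M : ℝ} (hM : 0 < M) {D : ℝ} (hD : 1 ≤ D)
    (h : 2 * Real.log 2 ≤ 32 * D ^ 2 * Real.log M) : 1 / (40 * D ^ 2) ≤ Real.log (base M) := by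
  have hlog2 : (0.6931 : ℝ) < Real.log 2 := by
    have := Real.log_two_gt_d9
    linarith
  have hD2 : 1 ≤ D ^ 2 := one_le_pow₀ hD
  have hD0 : 0 < D ^ 2 := by linarith
  set y : ℝ := 0.086 / D ^ 2 with hy
  have hy0 : 0 ≤ y := by positivity
  have hy1 : y ≤ 0.086 := by
    rw [hy, div_le_iff₀ hD0]
    nlinarith
  have h1 : y ≤ 2 * Real.log M := by
    rw [hy, div_le_iff₀ hD0]
    nlinarith
  have h2 : 1 / M ^ 2 ≤ Real.exp (-y) := by
    have h3 : 1 / M ^ 2 = Real.exp (-(2 * Real.log M)) := by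
      rw [Real.exp_neg, two_mul, Real.exp_add, Real.exp_log hM, one_div, sq]
    rw [h3]
    exact Real.exp_le_exp.2 (by linarith)
  have h4 : Real.exp (-y) ≤ 1 - y + y ^ 2 / 2 := by
    have h5 : |(-y)| ≤ 1 := by rw [abs_neg, abs_of_nonneg hy0]; linarith
    have h6 := Real.add_one_le_exp y
    have h7 : 0 < 1 - y + y ^ 2 / 2 := by nlinarith
    rw [Real.exp_neg]
    rw [inv_le_comm₀ (Real.exp_pos _) h7]
    have h8 := Real.quadratic_le_exp_of_nonneg hy0
    refine le_trans ?_ h8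
    rw [inv_le_iff_one_le_mul₀ h7]
    nlinarith [pow_nonneg hy0 3, pow_nonneg hy0 4]
  have h9 : 3 / (40 * D ^ 2) ≤ 1 - 1 / M ^ 2 := by
    have h10 : 3 / (40 * D ^ 2) = (0.075 / 0.086) * y := by
      rw [hy]; field_simp; norm_num
    rw [h10]
    nlinarith
  have h11 := base_exp hM h9 (by positivity) (by
    rw [div_le_iff₀ (by positivity)]
    nlinarith)
  refine le_trans (le_of_eq ?_) h11
  field_simp

/-- **The growth gap.** -/
theorem gap_cycl {k d : ℕ} (hk : 1 ≤ k) {G : Type u} [Group G] (S : Set G)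
    (hfin : S.Finite) (hgen : Subgroup.closure S = ⊤) (H : Subgroup G) (hH0 : H.index ≠ 0)
    (hHd : H.index ≤ d)
    (hnil : Group.IsNilpotent (gam H k) ∨ ¬ Group.IsVirtuallyNilpotent (H ⧸ ⁅gam H k, gam H k⁆))
    (D : ℕ) (hD : 1 ≤ D)
    (hcyc : ∀ (t : H) (z : ℂ), Module.End.HasEigenvalue
      (LinearMap.baseChange ℂ (Pool.Agent.TH53.UG.act (gam H k) t) :
        Module.End ℂ (ℂ ⊗[ℤ] (Additive (Abelianization (gam H k))))) z →
      z ≠ 0 → IsIntegral ℤ z → IsIntegral ℤ z⁻¹ → (∀ m : ℕ, 0 < m → z ^ m ≠ 1) →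
      ∃ w : ℂ, aeval w (minpoly ℤ z) = 0 ∧ NearCycNum D w) :
    Group.IsVirtuallyNilpotent G ∨ 1 / (40 * (D : ℝ) ^ 2 * 2 ^ (k + 1) * (2 * d - 1)) ≤
      H746UG.rho S := by
  have hDR : (1 : ℝ) ≤ D := by exact_mod_cast hD
  have hD2 : (1 : ℝ) ≤ (D : ℝ) ^ 2 := one_le_pow₀ hDR
  have e : (1 : ℝ) / (40 * (D : ℝ) ^ 2 * 2 ^ (k + 1) * (2 * d - 1)) =
      (1 / (40 * (D : ℝ) ^ 2)) / (2 ^ (k + 1) * (2 * d - 1)) := by
    rw [div_div, mul_assoc (40 * (D : ℝ) ^ 2)]
  rw [e]
  have hc : 1 / (40 * (D : ℝ) ^ 2) ≤ Real.log 2 := by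
    have := Real.log_two_gt_d9
    rw [div_le_iff₀ (by positivity)]
    nlinarith
  refine gap_general hk S hfin hgen H hH0 hHd hnil hc ?_
  intro hMf t b x hx0 hx hp
  have hxi : IsIntegral ℤ x := integral_of_root _ b hp
  by_cases hi : IsIntegral ℤ x⁻¹
  · have h2 := two_le_deg hxi hx0 hi hx
    have heig := eig_of_root (Pool.Agent.TH53.UG.act (gam H k) t) b hp (minpoly.aeval ℤ x)
    obtain ⟨w, hw, hnear⟩ := hcyc t x heig hx0 hxi hi hx
    -- the conjugate
    have hwi : IsIntegral ℤ w := ⟨minpoly ℤ x, minpoly.monic hxi, hw⟩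
    have hmin : minpoly ℤ w = minpoly ℤ x := by
      have h3 : minpoly ℤ w ∣ minpoly ℤ x := minpoly.isIntegrallyClosed_dvd hwi hw
      exact eq_of_monic_of_associated (minpoly.monic hwi) (minpoly.monic hxi)
        ((minpoly.irreducible hwi).associated_of_dvd (minpoly.irreducible hxi) h3)
    have hxw : aeval x (minpoly ℤ w) = 0 := by rw [hmin]; exact minpoly.aeval ℤ x
    have hw0 : w ≠ 0 := by
      intro hw0
      have h3 : minpoly ℤ w ∣ X := minpoly.isIntegrallyClosed_dvd hwi (by rw [aeval_X, hw0])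
      rw [hmin] at h3
      obtain ⟨q, hq⟩ := h3
      have h4 := congrArg (aeval x) hq
      rw [map_mul, minpoly.aeval, zero_mul, aeval_X] at h4
      exact hx0 h4
    have hwr : ∀ m > 0, w ^ m ≠ 1 := by
      intro m hm h
      apply hx m hm
      have h3 : minpoly ℤ w ∣ X ^ m - 1 := by
        apply minpoly.isIntegrallyClosed_dvd hwi
        simp [h]
      rw [hmin] at h3
      obtain ⟨q, hq⟩ := h3
      have h4 := congrArg (aeval x) hq
      rw [map_mul, minpoly.aeval, zero_mul, map_sub, map_pow, aeval_X, map_one] at h4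
      exact sub_eq_zero.mp h4
    have h3 := mahler_cyc hwi hw0 hwr D hnear
    have hMM : MM w = MM x := by unfold MM; rw [hmin]
    rw [hMM, hmin] at h3
    have hM : 0 < MM x := zero_lt_one.trans_le (MM_ge x hxi)
    have h4 : 2 * Real.log 2 ≤ 32 * (D : ℝ) ^ 2 * Real.log (MM x) := by
      refine le_trans ?_ h3
      apply mul_le_mul_of_nonneg_right _ (Real.log_nonneg (by norm_num))
      exact_mod_cast h2
    exact (base_cyc hM hDR h4).trans (eta_ge x hx0 hxi)
  · rw [H746UG.eta_eq_log_two x hx0 (fun h => hi h.2)]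
    exact hc

end Pool.Agent.X186.MJ
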