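import Mathlib

/-!
# Exponents for the descent along cyclotomic fields
-/

set_option autoImplicit false

namespace Pool.Agent.X186.MJ

/-- case `p ∣ m / p` -/
lemma expo_a (p M : ℕ) (hp : p.Prime) (hM : 0 < M) (hpM : p ∣ M) :
    ∃ a0 : ℕ, a0.Coprime (p * M) ∧ a0 ≡ 1 [MOD M] ∧
      (∀ a : ℕ, a.Coprime (p * M) → a ≡ 1 [MOD M] → ∃ k : ℕ, a ≡ a0 ^ k [MOD (p * M)]) ∧
      (∀ c : ℕ, ∃ e : ℕ, e * a0 + c * M ≡ e [MOD (p * M)]) := by
  have hdvd : p * M ∣ M * M := mul_dvd_mul_right hpM M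
  have hpow : ∀ k : ℕ, (1 + M) ^ k ≡ 1 + k * M [MOD (p * M)] := by
    intro k
    induction k with
    | zero => simp; rfl
    | succ k ih =>
      have h1 : (1 + M) ^ (k + 1) ≡ (1 + k * M) * (1 + M) [MOD (p * M)] := by
        rw [pow_succ]
        exact ih.mul_right _
      refine h1.trans ?_
      have h2 : (1 + k * M) * (1 + M) = (1 + (k + 1) * M) + k * (M * M) := by ring
      rw [h2]
      have h3 : k * (M * M) ≡ 0 [MOD (p * M)] :=
        (Nat.modEq_zero_iff_dvd).mpr (hdvd.mul_left k)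
      simpa using (Nat.ModEq.refl (1 + (k + 1) * M)).add h3
  refine ⟨1 + M, ?_, ?_, ?_, ?_⟩
  · have h1 : (1 + M).Coprime M := by
      rw [Nat.coprime_add_self_left]
      exact Nat.coprime_one_left M
    exact Nat.Coprime.mul_right (Nat.Coprime.coprime_dvd_right hpM h1) h1
  · have : 1 + M ≡ 1 + 0 [MOD M] := (Nat.ModEq.refl 1).add (by simp [Nat.ModEq])
    simpa using this
  · intro a ha ha1
    have hp1 := hp.one_lt
    have ha0 : 1 ≤ a := by
      rcases Nat.eq_zero_or_pos a with h | h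
      · subst h
        rw [Nat.coprime_zero_left] at ha
        have h2 : p * 1 ≤ p * M := Nat.mul_le_mul_left p hM
        omega
      · exact h
    have h2 : M ∣ a - 1 := (Nat.modEq_iff_dvd' ha0).mp ha1.symm
    obtain ⟨b, hb⟩ := h2
    refine ⟨b, ?_⟩
    have h3 : a = 1 + b * M := by
      rw [mul_comm b M, ← hb]
      omega
    rw [h3]
    exact (hpow b).symm
  · intro c
    refine ⟨(p - 1) * c, ?_⟩
    have h1 : (p - 1) * c * (1 + M) + c * M = (p - 1) * c + ((p - 1) + 1) * (c * M) := by ring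
    rw [h1, Nat.sub_add_cancel hp.one_le]
    have h3 : p * (c * M) ≡ 0 [MOD (p * M)] :=
      (Nat.modEq_zero_iff_dvd).mpr ⟨c, by ring⟩
    simpa using (Nat.ModEq.refl ((p - 1) * c)).add h3

/-- case `m / p` prime to `p` -/
lemma expo_b (p M : ℕ) (hp : p.Prime) (hp2 : p ≠ 2) (hM : 0 < M) (hpM : ¬ p ∣ M) :
    ∃ a0 : ℕ, a0.Coprime (p * M) ∧ a0 ≡ 1 [MOD M] ∧
      (∀ a : ℕ, a.Coprime (p * M) → a ≡ 1 [MOD M] → ∃ k : ℕ, a ≡ a0 ^ k [MOD (p * M)]) ∧
      (∀ c : ℕ, ∃ e : ℕ, e * a0 + c * M ≡ e [MOD (p * M)]) := by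
  haveI : Fact p.Prime := ⟨hp⟩
  have hco : p.Coprime M := (Nat.Prime.coprime_iff_not_dvd hp).mpr hpM
  obtain ⟨g, hg⟩ := IsCyclic.exists_generator (α := (ZMod p)ˣ)
  obtain ⟨a0, ha1, ha2⟩ := Nat.chineseRemainder hco ((g : ZMod p).val) 1
  have hga : ((a0 : ℕ) : ZMod p) = (g : ZMod p) := by
    have := (ZMod.natCast_eq_natCast_iff _ _ p).mpr ha1
    rw [this, ZMod.natCast_zmod_val]
  have hcop : a0.Coprime p := by
    rw [← ZMod.isUnit_iff_coprime, hga]
    exact g.isUnit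
  have hcoM : a0.Coprime M := by
    rw [Nat.Coprime, ha2.gcd_eq]
    simp
  have key : ∀ x y : ℕ, x ≡ y [MOD p] → x ≡ y [MOD M] → x ≡ y [MOD (p * M)] := fun x y h1 h2 =>
    (Nat.modEq_and_modEq_iff_modEq_mul hco).mp ⟨h1, h2⟩
  refine ⟨a0, Nat.Coprime.mul_right hcop hcoM, ha2, ?_, ?_⟩
  · intro a ha ha1'
    have h1 : a.Coprime p := Nat.Coprime.coprime_mul_right_right ha
    obtain ⟨k, hk⟩ : ∃ k : ℕ, (g ^ k : (ZMod p)ˣ) = ZMod.unitOfCoprime a h1 := by
      have := hg (ZMod.unitOfCoprime a h1)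
      rwa [← mem_powers_iff_mem_zpowers, Submonoid.mem_powers_iff] at this
    refine ⟨k, key _ _ ?_ ?_⟩
    · rw [← ZMod.natCast_eq_natCast_iff, Nat.cast_pow, hga]
      have := congrArg (fun u : (ZMod p)ˣ => (u : ZMod p)) hk
      simpa using this.symm
    · have := ha2.pow k
      rw [one_pow] at this
      exact ha1'.trans this.symm
  · intro c
    -- `g ≠ 1`
    have hg1 : (g : ZMod p) ≠ 1 := by
      intro h
      have hg' : g = 1 := Units.ext (by simpa using h)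
      have h2 : (-1 : (ZMod p)ˣ) ∈ Subgroup.zpowers g := hg (-1)
      rw [hg', Subgroup.zpowers_one_eq_bot, Subgroup.mem_bot] at h2
      have h3 := congrArg (fun u : (ZMod p)ˣ => (u : ZMod p)) h2
      simp only [Units.val_neg, Units.val_one] at h3
      haveI : Fact (2 < p) := ⟨lt_of_le_of_ne hp.two_le (Ne.symm hp2)⟩
      exact ZMod.neg_one_ne_one h3
    have hsub : ((g : ZMod p) - 1) ≠ 0 := sub_ne_zero.mpr hg1
    let x : ZMod p := -((c * M : ℕ) : ZMod p) * ((g : ZMod p) - 1)⁻¹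
    refine ⟨x.val, key _ _ ?_ ?_⟩
    · rw [← ZMod.natCast_eq_natCast_iff, Nat.cast_add, Nat.cast_mul, ZMod.natCast_zmod_val, hga]
      have h4 : x * ((g : ZMod p) - 1) = -((c * M : ℕ) : ZMod p) := by
        simp only [x]
        rw [mul_assoc, inv_mul_cancel₀ hsub, mul_one]
      linear_combination h4
    · have h1 : x.val * a0 ≡ x.val * 1 [MOD M] := ha2.mul_left _
      have h2 : c * M ≡ 0 [MOD M] := (Nat.modEq_zero_iff_dvd).mpr (Dvd.intro_left c rfl)
      simpa using h1.add h2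

/-- the exponents used in the descent -/
lemma expo (p M : ℕ) (hp : p.Prime) (hp2 : p ≠ 2) (hM : 0 < M) :
    ∃ a0 : ℕ, a0.Coprime (p * M) ∧ a0 ≡ 1 [MOD M] ∧
      (∀ a : ℕ, a.Coprime (p * M) → a ≡ 1 [MOD M] → ∃ k : ℕ, a ≡ a0 ^ k [MOD (p * M)]) ∧
      (∀ c : ℕ, ∃ e : ℕ, e * a0 + c * M ≡ e [MOD (p * M)]) := by
  by_cases h : p ∣ M
  · exact expo_a p M hp hM h
  · exact expo_b p M hp hp2 hM h

end Pool.Agent.X186.MJ
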