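import Mathlib

/-!
# Congruences modulo `p` for conjugates over cyclotomic fields
-/

set_option autoImplicit false

open Finset Polynomial NumberField Module

namespace Pool.Agent.X186.MJ

variable {N : Type} [Field N] [NumberField N]

/-- the action of the Galois group on the ring of integers -/
noncomputable def act (g : N ≃ₐ[ℚ] N) : 𝓞 N ≃+* 𝓞 N := RingOfIntegers.mapRingEquiv g.toRingEquiv

lemma act_coe (g : N ≃ₐ[ℚ] N) (x : 𝓞 N) : ((act g x : 𝓞 N) : N) = g (x : N) := rfl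

lemma act_mul (g h : N ≃ₐ[ℚ] N) (x : 𝓞 N) : act (g * h) x = act g (act h x) := rfl

lemma act_one (x : 𝓞 N) : act (1 : N ≃ₐ[ℚ] N) x = x := rfl

lemma act_inv_act (g : N ≃ₐ[ℚ] N) (x : 𝓞 N) : act g⁻¹ (act g x) = x := by
  rw [← act_mul, inv_mul_cancel, act_one]

lemma act_act_inv (g : N ≃ₐ[ℚ] N) (x : 𝓞 N) : act g (act g⁻¹ x) = x := by
  rw [← act_mul, mul_inv_cancel, act_one]

open Classical in
/-- the conjugates of `α` under the automorphisms fixing `ζ` -/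
noncomputable def orb (ζ α : 𝓞 N) : Finset (𝓞 N) :=
  ((univ : Finset (N ≃ₐ[ℚ] N)).filter (fun g => act g ζ = ζ)).image (fun g => act g α)

lemma mem_orb (ζ α β : 𝓞 N) : β ∈ orb ζ α ↔ ∃ g : N ≃ₐ[ℚ] N, act g ζ = ζ ∧ act g α = β := by
  classical
  simp [orb]

lemma self_mem_orb (ζ α : 𝓞 N) : α ∈ orb ζ α := (mem_orb _ _ _).mpr ⟨1, rfl, rfl⟩

lemma exists_aut [IsGalois ℚ N] {m : ℕ} (hm : 0 < m) {ζ : 𝓞 N} (hζ : IsPrimitiveRoot ζ m) (a : ℕ)
    (ha : a.Coprime m) : ∃ g : N ≃ₐ[ℚ] N, act g ζ = ζ ^ a := by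
  have h1 : IsPrimitiveRoot (ζ : N) m := hζ.map_of_injective (RingOfIntegers.coe_injective)
  have h2 : IsPrimitiveRoot ((ζ : N) ^ a) m := h1.pow_of_coprime a ha
  have h3 : IsConjRoot ℚ ((ζ : N) ^ a) (ζ : N) := by
    rw [IsConjRoot, ← cyclotomic_eq_minpoly_rat h1 hm, ← cyclotomic_eq_minpoly_rat h2 hm]
  obtain ⟨g, hg⟩ := isConjRoot_iff_exists_algEquiv.mp h3
  refine ⟨g, RingOfIntegers.ext ?_⟩
  rw [act_coe, hg]
  rfl

/-- integers fixed by all automorphisms fixing `ζ` are integral polynomials in `ζ` -/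
lemma exists_poly [IsGalois ℚ N] {m : ℕ} (hm : 0 < m) {ζ : 𝓞 N} (hζ : IsPrimitiveRoot ζ m)
    (x : 𝓞 N) (hx : ∀ g : N ≃ₐ[ℚ] N, act g ζ = ζ → act g x = x) : ∃ h : ℤ[X], x = aeval ζ h := by
  have hne : NeZero m := ⟨hm.ne'⟩
  have h1 : IsPrimitiveRoot (ζ : N) m := hζ.map_of_injective (RingOfIntegers.coe_injective)
  let F : IntermediateField ℚ N := IntermediateField.adjoin ℚ {(ζ : N)}
  have hζF : (ζ : N) ∈ F := IntermediateField.mem_adjoin_simple_self ℚ _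
  have hcyc : IsCyclotomicExtension {m} ℚ F := h1.intermediateField_adjoin_isCyclotomicExtension ℚ
  have hxF : (x : N) ∈ F := by
    rw [← IsGalois.fixedField_fixingSubgroup F, IntermediateField.mem_fixedField_iff]
    intro g hg
    rw [IntermediateField.mem_fixingSubgroup_iff] at hg
    have h2 : act g ζ = ζ := RingOfIntegers.ext (hg _ hζF)
    exact congrArg (fun y : 𝓞 N => (y : N)) (hx g h2)
  let z : F := ⟨(ζ : N), hζF⟩
  have hz : IsPrimitiveRoot z m := by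
    exact IsPrimitiveRoot.of_map_of_injective (f := algebraMap F N) h1
      (FaithfulSMul.algebraMap_injective F N)
  have hic : IsIntegralClosure (Algebra.adjoin ℤ {z}) ℤ F :=
    IsCyclotomicExtension.Rat.isIntegralClosure_adjoin_singleton hz
  have hxint : IsIntegral ℤ (⟨(x : N), hxF⟩ : F) := by
    have h3 : IsIntegral ℤ (algebraMap F N ⟨(x : N), hxF⟩) := x.isIntegral_coe
    exact (isIntegral_algebraMap_iff (FaithfulSMul.algebraMap_injective F N)).mp h3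
  obtain ⟨y, hy⟩ := (hic.isIntegral_iff).mp hxint
  obtain ⟨h, hh⟩ : ∃ h : ℤ[X], aeval z h = (y : F) := by
    have hy2 : ∀ w : F, w ∈ Algebra.adjoin ℤ {z} → ∃ h : ℤ[X], aeval z h = w := by
      intro w hw
      rw [Algebra.adjoin_singleton_eq_range_aeval] at hw
      exact hw
    exact hy2 _ y.2
  refine ⟨h, RingOfIntegers.ext ?_⟩
  have h4 : aeval z h = (⟨(x : N), hxF⟩ : F) := by
    rw [← hy]
    exact hh
  have h5 := congrArg (algebraMap F N) h4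
  rw [← aeval_algebraMap_apply] at h5
  have h6 : ((aeval ζ h : 𝓞 N) : N) = aeval (ζ : N) h := by
    have := aeval_algebraMap_apply N ζ h
    exact this.symm
  rw [h6]
  exact h5.symm

/-- Frobenius and integral polynomials -/
lemma aeval_pow_char {Q : Type} [CommRing Q] (p : ℕ) [Fact p.Prime] [CharP Q p] (h : ℤ[X])
    (y : Q) : (aeval y h) ^ p = aeval (y ^ p) h := by
  have h1 : (aeval y h) ^ p = frobenius Q p (aeval y h) := rfl
  have h2 : y ^ p = frobenius Q p y := rfl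
  rw [h1, h2, aeval_def, aeval_def, hom_eval₂]
  congr 1
  exact RingHom.ext_int _ _

/-- the polynomial of the conjugates -/
noncomputable def fpol (ζ α : 𝓞 N) : (𝓞 N)[X] := ∏ β ∈ orb ζ α, (X - C β)

lemma image_orb (ζ α : 𝓞 N) (g : N ≃ₐ[ℚ] N) (hg : act g ζ = ζ) [DecidableEq (𝓞 N)] :
    (orb ζ α).image (act g) = orb ζ α := by
  classical
  apply Finset.eq_of_subset_of_card_le
  · intro β hβ
    rw [Finset.mem_image] at hβ
    obtain ⟨γ, hγ, rfl⟩ := hβ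
    obtain ⟨h, hh, rfl⟩ := (mem_orb _ _ _).mp hγ
    refine (mem_orb _ _ _).mpr ⟨g * h, ?_, ?_⟩
    · rw [act_mul, hh, hg]
    · rw [act_mul]
  · rw [Finset.card_image_of_injective _ (act g).injective]

lemma fpol_fixed (ζ α : 𝓞 N) (g : N ≃ₐ[ℚ] N) (hg : act g ζ = ζ) (j : ℕ) :
    act g ((fpol ζ α).coeff j) = (fpol ζ α).coeff j := by
  classical
  have h1 : (fpol ζ α).map (act g : 𝓞 N →+* 𝓞 N) = fpol ζ α := by
    rw [fpol, Polynomial.map_prod]
    conv_rhs => rw [← image_orb ζ α g hg]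
    rw [Finset.prod_image (fun x _ y _ h => (act g).injective h)]
    refine Finset.prod_congr rfl fun β _ => ?_
    simp
  conv_rhs => rw [← h1]
  rw [coeff_map]
  rfl

/-- the polynomial of the `p`-th powers of the conjugates -/
noncomputable def gpol (p : ℕ) (ζ α : 𝓞 N) : (𝓞 N)[X] := ∏ β ∈ orb ζ α, (X - C (β ^ p))

/-- the polynomial of the transformed conjugates -/
noncomputable def tpol (ζ α : 𝓞 N) (τ : N ≃ₐ[ℚ] N) (e : ℕ) : (𝓞 N)[X] :=
  ∏ β ∈ orb ζ α, (X - C ((act τ β) ^ e))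

/-- **The congruence of polynomials.** -/
theorem pol_congr [IsGalois ℚ N] {m : ℕ} (hm : 0 < m) {ζ : 𝓞 N} (hζ : IsPrimitiveRoot ζ m)
    (p : ℕ) [hp : Fact p.Prime] (α : 𝓞 N) (τ : N ≃ₐ[ℚ] N) (e : ℕ)
    (he : (e = p ∧ (act τ ζ) ^ p = ζ ^ p) ∨ (e = 1 ∧ act τ ζ = ζ ^ p))
    (hunit : ¬ IsUnit (p : 𝓞 N)) :
    (tpol ζ α τ e).map (Ideal.Quotient.mk (Ideal.span {(p : 𝓞 N)})) =
      (gpol p ζ α).map (Ideal.Quotient.mk (Ideal.span {(p : 𝓞 N)})) := by
  classical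
  set I : Ideal (𝓞 N) := Ideal.span {(p : 𝓞 N)} with hI
  have hchar : CharP (𝓞 N ⧸ I) p := CharP.quotient (𝓞 N) p hunit
  set q : 𝓞 N →+* 𝓞 N ⧸ I := Ideal.Quotient.mk I with hq
  -- coefficients
  have hcoef : ∀ j, ∃ h : ℤ[X], (fpol ζ α).coeff j = aeval ζ h := fun j =>
    exists_poly hm hζ _ (fun g hg => fpol_fixed ζ α g hg j)
  have hqa : ∀ (x : 𝓞 N) (h : ℤ[X]), q (aeval x h) = aeval (q x) h := by
    intro x h
    rw [aeval_def, aeval_def, hom_eval₂]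
    rfl
  have hτa : ∀ (x : 𝓞 N) (h : ℤ[X]), act τ (aeval x h) = aeval (act τ x) h := by
    intro x h
    have h1 := hom_eval₂ h (algebraMap ℤ (𝓞 N)) (act τ : 𝓞 N →+* 𝓞 N) x
    rw [aeval_def, aeval_def]
    refine h1.trans ?_
    congr 1
    exact RingHom.ext_int _ _
  have hgp : (gpol p ζ α).map q = ((fpol ζ α).map q).map (frobenius (𝓞 N ⧸ I) p) := by
    rw [gpol, fpol, Polynomial.map_prod, Polynomial.map_prod, Polynomial.map_prod]
    refine Finset.prod_congr rfl fun β _ => ?_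
    simp [frobenius_def]
  have hgj : ∀ j, q ((gpol p ζ α).coeff j) = (q ((fpol ζ α).coeff j)) ^ p := by
    intro j
    have := congrArg (fun P => P.coeff j) hgp
    simp only [coeff_map] at this
    exact this
  -- action on classes
  have hqτ : ∀ x y : 𝓞 N, q x = q y → q (act τ x) = q (act τ y) := by
    intro x y h
    rw [hq, Ideal.Quotient.mk_eq_mk_iff_sub_mem, hI, Ideal.mem_span_singleton] at h ⊢
    obtain ⟨w, hw⟩ := h
    refine ⟨act τ w, ?_⟩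
    rw [← map_sub, hw, map_mul, map_natCast]
  have hmain : ∀ T : (𝓞 N)[X], (∀ j, q (T.coeff j) = q ((gpol p ζ α).coeff j)) →
      T.map q = (gpol p ζ α).map q := by
    intro T hT
    ext j
    rw [coeff_map, coeff_map]
    exact hT j
  rcases he with ⟨he, hτ⟩ | ⟨he, hτ⟩
  · have h1 : tpol ζ α τ e = (gpol p ζ α).map (act τ : 𝓞 N →+* 𝓞 N) := by
      rw [tpol, gpol, Polynomial.map_prod, he]
      refine Finset.prod_congr rfl fun β _ => ?_
      simp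
    rw [h1]
    refine hmain _ fun j => ?_
    obtain ⟨h, hh⟩ := hcoef j
    rw [coeff_map]
    have h2 : q (act τ ((gpol p ζ α).coeff j)) = q (act τ (((fpol ζ α).coeff j) ^ p)) :=
      hqτ _ _ (by rw [hgj, map_pow])
    refine h2.trans ?_
    rw [hgj, map_pow, map_pow, hh, hτa, hqa, hqa]
    have h3 : q (act τ ζ) ^ p = q ζ ^ p := by
      rw [← map_pow q (act τ ζ) p, hτ, map_pow]
    refine (aeval_pow_char p h _).trans (Eq.trans ?_ (aeval_pow_char p h _).symm)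
    rw [h3]
  · have h1 : tpol ζ α τ e = (fpol ζ α).map (act τ : 𝓞 N →+* 𝓞 N) := by
      rw [tpol, fpol, Polynomial.map_prod, he]
      refine Finset.prod_congr rfl fun β _ => ?_
      simp
    rw [h1]
    refine hmain _ fun j => ?_
    obtain ⟨h, hh⟩ := hcoef j
    rw [coeff_map]
    show q (act τ ((fpol ζ α).coeff j)) = _
    rw [hgj, hh, hτa, hqa, hqa, hτ, map_pow]
    exact (aeval_pow_char p h (q ζ)).symm

/-- **The first divisibility.** -/
theorem dvd_left [IsGalois ℚ N] {m : ℕ} (hm : 0 < m) {ζ : 𝓞 N} (hζ : IsPrimitiveRoot ζ m)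
    (p : ℕ) [hp : Fact p.Prime] (α : 𝓞 N) (τ : N ≃ₐ[ℚ] N) (e : ℕ)
    (he : (e = p ∧ (act τ ζ) ^ p = ζ ^ p) ∨ (e = 1 ∧ act τ ζ = ζ ^ p)) (β₁ : 𝓞 N)
    (hβ₁ : β₁ ∈ orb ζ α) :
    (p : 𝓞 N) ∣ ∏ β ∈ orb ζ α, (β₁ ^ p - (act τ β) ^ e) := by
  classical
  by_cases hunit : IsUnit (p : 𝓞 N)
  · exact hunit.dvd
  rw [← Ideal.Quotient.eq_zero_iff_dvd]
  have h1 : ∏ β ∈ orb ζ α, (β₁ ^ p - (act τ β) ^ e) = (tpol ζ α τ e).eval (β₁ ^ p) := by
    rw [tpol, eval_prod]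
    refine Finset.prod_congr rfl fun β _ => ?_
    simp
  have h4 : (gpol p ζ α).eval (β₁ ^ p) = 0 := by
    rw [gpol, eval_prod]
    exact Finset.prod_eq_zero hβ₁ (by simp)
  have h2 := eval_map_apply (Ideal.Quotient.mk (Ideal.span {(p : 𝓞 N)})) (β₁ ^ p)
    (p := tpol ζ α τ e)
  have h3 := eval_map_apply (Ideal.Quotient.mk (Ideal.span {(p : 𝓞 N)})) (β₁ ^ p)
    (p := gpol p ζ α)
  rw [pol_congr hm hζ p α τ e he hunit, h3, h4, map_zero] at h2
  rw [h1, ← h2]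

/-- **The second divisibility.** -/
theorem dvd_right [IsGalois ℚ N] {m : ℕ} (hm : 0 < m) {ζ : 𝓞 N} (hζ : IsPrimitiveRoot ζ m)
    (p : ℕ) [hp : Fact p.Prime] (α : 𝓞 N) (τ : N ≃ₐ[ℚ] N) (e : ℕ)
    (he : (e = p ∧ (act τ ζ) ^ p = ζ ^ p) ∨ (e = 1 ∧ act τ ζ = ζ ^ p)) (β₁ : 𝓞 N)
    (hβ₁ : β₁ ∈ orb ζ α) :
    (p : 𝓞 N) ∣ ∏ β ∈ orb ζ α, ((act τ β₁) ^ e - β ^ p) := by
  classical
  by_cases hunit : IsUnit (p : 𝓞 N)
  · exact hunit.dvd
  rw [← Ideal.Quotient.eq_zero_iff_dvd]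
  have h1 : ∏ β ∈ orb ζ α, ((act τ β₁) ^ e - β ^ p) = (gpol p ζ α).eval ((act τ β₁) ^ e) := by
    rw [gpol, eval_prod]
    refine Finset.prod_congr rfl fun β _ => ?_
    simp
  have h4 : (tpol ζ α τ e).eval ((act τ β₁) ^ e) = 0 := by
    rw [tpol, eval_prod]
    exact Finset.prod_eq_zero hβ₁ (by simp)
  have h2 := eval_map_apply (Ideal.Quotient.mk (Ideal.span {(p : 𝓞 N)})) ((act τ β₁) ^ e)
    (p := tpol ζ α τ e)
  have h3 := eval_map_apply (Ideal.Quotient.mk (Ideal.span {(p : 𝓞 N)})) ((act τ β₁) ^ e)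
    (p := gpol p ζ α)
  rw [pol_congr hm hζ p α τ e he hunit, h3, h4, map_zero] at h2
  rw [h1, h2]

end Pool.Agent.X186.MJ
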