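import Pool.Agent.X186.MJ.A
import Pool.Agent.X186.MJ.B
import Pool.Agent.H225R3.Marg2
import Pool.Agent.TH53.HR3

/-!
# The descent: heights of numbers of bounded degree over cyclotomic fields
-/

set_option autoImplicit false

open Finset Polynomial NumberField Module

namespace Pool.Agent.X186.MJ

open Pool.Agent.H225R3.Marg

variable {N : Type} [Field N] [NumberField N]

/-- the logarithmic height, not normalized -/
noncomputable def hW (x : 𝓞 N) : ℝ := ∑ σ : N →+* ℂ, Real.log (max 1 ‖σ (x : N)‖)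

lemma hW_nonneg (x : 𝓞 N) : 0 ≤ hW x :=
  Finset.sum_nonneg fun _ _ => Real.log_nonneg (le_max_left _ _)

lemma hW_act (g : N ≃ₐ[ℚ] N) (x : 𝓞 N) : hW (act g x) = hW x := by
  classical
  unfold hW
  have hinj : Function.Injective (fun σ : N →+* ℂ => σ.comp (g.toRingEquiv : N →+* N)) := by
    intro σ σ' h
    ext y
    have := RingHom.congr_fun h (g.symm y)
    simpa using this
  have hbij : Function.Bijective (fun σ : N →+* ℂ => σ.comp (g.toRingEquiv : N →+* N)) :=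
    Finite.injective_iff_bijective.mp hinj
  exact hbij.sum_comp (fun σ : N →+* ℂ => Real.log (max 1 ‖σ (x : N)‖))

lemma hW_root (x η : 𝓞 N) (j : ℕ) (hj : 0 < j) (hη : η ^ j = 1) : hW (η * x) = hW x := by
  unfold hW
  refine Finset.sum_congr rfl fun σ _ => ?_
  have h1 : (σ (η : N)) ^ j = 1 := by
    rw [← map_pow]
    have h2 : ((η : N)) ^ j = 1 := by
      have := congrArg (fun y : 𝓞 N => (y : N)) hη
      simpa using this
    rw [h2, map_one]
  have h3 : ‖σ (η : N)‖ = 1 := Complex.norm_eq_one_of_pow_eq_one h1 hj.ne'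
  have h4 : ((η * x : 𝓞 N) : N) = (η : N) * (x : N) := rfl
  rw [h4, map_mul, norm_mul, h3, one_mul]

lemma card_emb : Fintype.card (N →+* ℂ) = finrank ℚ N := by
  exact NumberField.Embeddings.card N ℂ

lemma lower (p : ℕ) (hp : 0 < p) (z : 𝓞 N) (hz : z ≠ 0) (hd : (p : 𝓞 N) ∣ z) :
    (finrank ℚ N : ℝ) * Real.log p ≤ ∑ σ : N →+* ℂ, Real.log ‖σ (z : N)‖ := by
  classical
  obtain ⟨w, rfl⟩ := hd
  have hw : w ≠ 0 := right_ne_zero_of_mul hz
  have hwN : (w : N) ≠ 0 := by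
    intro h
    exact hw (RingOfIntegers.ext (by simpa using h))
  have hpN : ((p : ℕ) : N) ≠ 0 := by exact_mod_cast hp.ne'
  have h1 : ∀ σ : N →+* ℂ, Real.log ‖σ (((p : 𝓞 N) * w : 𝓞 N) : N)‖ =
      Real.log p + Real.log ‖σ (w : N)‖ := by
    intro σ
    have h2 : (((p : 𝓞 N) * w : 𝓞 N) : N) = ((p : ℕ) : N) * (w : N) := by simp
    rw [h2, map_mul, norm_mul, map_natCast, Complex.norm_natCast, Real.log_mul]
    · exact_mod_cast hp.ne'
    · rw [norm_ne_zero_iff]
      exact (map_ne_zero σ).mpr hwN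
  rw [Finset.sum_congr rfl fun σ _ => h1 σ, Finset.sum_add_distrib, Finset.sum_const,
    Finset.card_univ, card_emb, nsmul_eq_mul]
  have h3 : 0 ≤ ∑ σ : N →+* ℂ, Real.log ‖σ (w : N)‖ := by
    rw [← Real.log_prod (fun σ _ => by
      rw [norm_ne_zero_iff]
      exact (map_ne_zero σ).mpr hwN)]
    apply Real.log_nonneg
    have h4 := norm_int_eq w
    have h5 : ∏ σ : N →+* ℂ, ‖σ (w : N)‖ = ((Algebra.norm ℤ w).natAbs : ℝ) := by
      rw [h4]
      rfl
    rw [h5]
    have h6 : Algebra.norm ℤ w ≠ 0 := Algebra.norm_ne_zero_iff.mpr hw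
    exact_mod_cast Int.natAbs_pos.mpr h6
  linarith

lemma hW_pow (x : 𝓞 N) (j : ℕ) : hW (x ^ j) = j * hW x := by
  unfold hW
  rw [Finset.mul_sum]
  refine Finset.sum_congr rfl fun σ _ => ?_
  have h1 : ((x ^ j : 𝓞 N) : N) = (x : N) ^ j := by simp
  rw [h1, map_pow, norm_pow]
  have h2 : max 1 (‖σ (x : N)‖ ^ j) = (max 1 ‖σ (x : N)‖) ^ j := by
    rcases le_total ‖σ (x : N)‖ 1 with h | h
    · rw [max_eq_left h, one_pow, max_eq_left (pow_le_one₀ (norm_nonneg _) h)]
    · rw [max_eq_right h, max_eq_right (one_le_pow₀ h)]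
  rw [h2, Real.log_pow]

/-- the product of the differences -/
noncomputable def dprod [DecidableEq (𝓞 N)] (W : Finset (𝓞 N)) : 𝓞 N :=
  ∏ w ∈ W, ∏ w' ∈ W.erase w, (w - w')

lemma dprod_ne_zero [DecidableEq (𝓞 N)] (W : Finset (𝓞 N)) : dprod W ≠ 0 := by
  rw [dprod, Finset.prod_ne_zero_iff]
  intro w _
  rw [Finset.prod_ne_zero_iff]
  intro w' hw'
  exact sub_ne_zero.mpr (Finset.ne_of_mem_erase hw').symm

lemma norm_dprod [DecidableEq (𝓞 N)] (W : Finset (𝓞 N)) (σ : N →+* ℂ) :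
    ‖σ ((dprod W : 𝓞 N) : N)‖ ≤
      (W.card : ℝ) ^ W.card * ∏ w ∈ W, (max 1 ‖σ (w : N)‖) ^ (2 * (W.card - 1)) := by
  classical
  set K := W.card with hK
  let en : Fin K ≃ W := W.equivFin.symm
  let v : Fin K → ℂ := fun i => σ ((en i : 𝓞 N) : N)
  have h1 := Pool.Agent.TH53.HR.vandermonde_le v
  have h2 : ‖(Matrix.vandermonde v).det‖ ^ 2 = ∏ i : Fin K, ∏ j ∈ ({i} : Finset (Fin K))ᶜ,
      ‖v j - v i‖ := by
    rw [← Finset.prod_prod_Ioi_mul_eq_prod_prod_off_diag (fun j i => ‖v j - v i‖),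
      Matrix.det_vandermonde, norm_prod, sq, ← Finset.prod_mul_distrib]
    refine Finset.prod_congr rfl fun i _ => ?_
    rw [norm_prod, ← Finset.prod_mul_distrib]
    refine Finset.prod_congr rfl fun j _ => ?_
    rw [norm_sub_rev (v i) (v j)]
  have h3 : ‖σ ((dprod W : 𝓞 N) : N)‖ = ∏ i : Fin K, ∏ j ∈ ({i} : Finset (Fin K))ᶜ,
      ‖v j - v i‖ := by
    have h4 : ((dprod W : 𝓞 N) : N) = ∏ w ∈ W, ∏ w' ∈ W.erase w, ((w : N) - (w' : N)) := by
      have := map_prod (algebraMap (𝓞 N) N) (fun w => ∏ w' ∈ W.erase w, (w - w')) W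
      refine this.trans ?_
      refine Finset.prod_congr rfl fun w _ => ?_
      rw [map_prod]
      refine Finset.prod_congr rfl fun w' _ => ?_
      rw [map_sub]
    rw [h4, map_prod, norm_prod]
    have h5 : ∀ F : 𝓞 N → ℝ, ∏ w ∈ W, F w = ∏ i : Fin K, F (en i : 𝓞 N) := by
      intro F
      rw [← Finset.prod_coe_sort W F]
      exact (Equiv.prod_comp en (fun w : W => F (w : 𝓞 N))).symm
    rw [h5]
    refine Finset.prod_congr rfl fun i _ => ?_
    rw [map_prod, norm_prod]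
    have h6 : W.erase ((en i : W) : 𝓞 N) = (({i} : Finset (Fin K))ᶜ).image
        (fun j => ((en j : W) : 𝓞 N)) := by
      ext y
      rw [Finset.mem_erase, Finset.mem_image]
      constructor
      · rintro ⟨hy, hyW⟩
        refine ⟨en.symm ⟨y, hyW⟩, ?_, ?_⟩
        · rw [Finset.mem_compl, Finset.mem_singleton]
          intro h
          apply hy
          rw [← h, Equiv.apply_symm_apply]
        · rw [Equiv.apply_symm_apply]
      · rintro ⟨j, hj, rfl⟩
        rw [Finset.mem_compl, Finset.mem_singleton] at hj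
        refine ⟨fun h => hj (en.injective (Subtype.ext h)), (en j).2⟩
    rw [h6, Finset.prod_image]
    · refine Finset.prod_congr rfl fun j _ => ?_
      rw [map_sub, norm_sub_rev]
    · intro a _ b _ hab
      exact en.injective (Subtype.ext hab)
  rw [h3, ← h2]
  refine h1.trans (le_of_eq ?_)
  congr 1
  rw [← Finset.prod_coe_sort W (fun w => (max 1 ‖σ (w : N)‖) ^ (2 * (K - 1)))]
  exact Equiv.prod_comp en (fun w : W => (max 1 ‖σ ((w : 𝓞 N) : N)‖) ^ (2 * (K - 1)))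

lemma sum_dprod [DecidableEq (𝓞 N)] (W : Finset (𝓞 N)) (hW0 : 0 < W.card) :
    ∑ σ : N →+* ℂ, Real.log ‖σ ((dprod W : 𝓞 N) : N)‖ ≤
      finrank ℚ N * (W.card * Real.log W.card) + 2 * ((W.card : ℝ) - 1) * ∑ w ∈ W, hW w := by
  classical
  have hc : (0 : ℝ) < W.card := by exact_mod_cast hW0
  have h1 : ∀ σ : N →+* ℂ, Real.log ‖σ ((dprod W : 𝓞 N) : N)‖ ≤
      W.card * Real.log W.card +
        ∑ w ∈ W, 2 * ((W.card : ℝ) - 1) * Real.log (max 1 ‖σ (w : N)‖) := by
    intro σ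
    have h2 : 0 < ‖σ ((dprod W : 𝓞 N) : N)‖ := by
      rw [norm_pos_iff]
      refine (map_ne_zero σ).mpr ?_
      intro h
      exact dprod_ne_zero W (RingOfIntegers.ext (by simpa using h))
    have h3 : ∀ w ∈ W, (0 : ℝ) < (max 1 ‖σ (w : N)‖) ^ (2 * (W.card - 1)) := fun w _ =>
      pow_pos (lt_of_lt_of_le one_pos (le_max_left _ _)) _
    refine (Real.log_le_log h2 (norm_dprod W σ)).trans ?_
    rw [Real.log_mul (pow_pos hc _).ne' (Finset.prod_pos h3).ne', Real.log_pow,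
      Real.log_prod (fun w hw => (h3 w hw).ne')]
    refine le_of_eq ?_
    congr 1
    refine Finset.sum_congr rfl fun w _ => ?_
    rw [Real.log_pow]
    push_cast [Nat.cast_sub hW0]
    ring
  refine (Finset.sum_le_sum fun σ _ => h1 σ).trans ?_
  rw [Finset.sum_add_distrib, Finset.sum_const, Finset.card_univ, card_emb, nsmul_eq_mul,
    Finset.sum_comm]
  refine le_of_eq ?_
  congr 1
  rw [Finset.mul_sum]
  refine Finset.sum_congr rfl fun w _ => ?_
  rw [hW, Finset.mul_sum]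

lemma orb_eq (ζ α β : 𝓞 N) (h : β ∈ orb ζ α) : orb ζ β = orb ζ α := by
  obtain ⟨g, hg, rfl⟩ := (mem_orb _ _ _).mp h
  ext γ
  rw [mem_orb, mem_orb]
  constructor
  · rintro ⟨h, hh, rfl⟩
    exact ⟨h * g, by rw [act_mul, hg, hh], by rw [act_mul]⟩
  · rintro ⟨h, hh, rfl⟩
    refine ⟨h * g⁻¹, ?_, ?_⟩
    · rw [act_mul]
      have : act g⁻¹ ζ = ζ := by
        conv_lhs => rw [← hg]
        rw [act_inv_act]
      rw [this, hh]
    · rw [act_mul, act_inv_act]

/-- no two different conjugates over `ℚ (ζ)` have the same `p`-th power -/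
def NoBad (p : ℕ) (ζ α : 𝓞 N) : Prop := ∀ β ∈ orb ζ α, ∀ β' ∈ orb ζ α, β ^ p = β' ^ p → β = β'

/-- one step: the height bound if the products do not vanish -/
lemma step_bound [IsGalois ℚ N] {m : ℕ} (hm : 0 < m) {ζ : 𝓞 N} (hζ : IsPrimitiveRoot ζ m)
    (p : ℕ) [hp : Fact p.Prime] (α : 𝓞 N) (τ : N ≃ₐ[ℚ] N) (e : ℕ)
    (he : (e = p ∧ (act τ ζ) ^ p = ζ ^ p) ∨ (e = 1 ∧ act τ ζ = ζ ^ p))
    (hbad : NoBad p ζ α)
    (hz : ∀ β ∈ orb ζ α, ∀ β' ∈ orb ζ α, β ^ p ≠ (act τ β') ^ e) (D : ℕ)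
    (hD : (orb ζ α).card ≤ D) :
    (finrank ℚ N : ℝ) * (Real.log p - Real.log (2 * D)) ≤ 2 * (2 * D) * p * hW α := by
  classical
  set O := orb ζ α with hO
  set d := O.card with hd
  have hd0 : 0 < d := Finset.card_pos.mpr ⟨α, self_mem_orb ζ α⟩
  set X := O.image (fun β => β ^ p) with hX
  set Y := O.image (fun β => (act τ β) ^ e) with hY
  have hinjX : Set.InjOn (fun β : 𝓞 N => β ^ p) O := fun β hβ β' hβ' h => hbad β hβ β' hβ' h
  have hinjY : Set.InjOn (fun β : 𝓞 N => (act τ β) ^ e) O := by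
    intro β hβ β' hβ' h
    rcases he with ⟨he, -⟩ | ⟨he, -⟩
    · simp only [he, ← map_pow] at h
      exact hbad β hβ β' hβ' ((act τ).injective h)
    · simp only [he, pow_one] at h
      exact (act τ).injective h
  have hcX : X.card = d := Finset.card_image_of_injOn hinjX
  have hcY : Y.card = d := Finset.card_image_of_injOn hinjY
  have hdis : Disjoint X Y := by
    rw [Finset.disjoint_left]
    intro w hw hw'
    obtain ⟨β, hβ, rfl⟩ := Finset.mem_image.mp hw
    obtain ⟨β', hβ', h⟩ := Finset.mem_image.mp hw'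
    exact hz β hβ β' hβ' h.symm
  set W := X ∪ Y with hWdef
  have hcW : W.card = 2 * d := by
    rw [hWdef, Finset.card_union_of_disjoint hdis, hcX, hcY]
    ring
  -- divisibility
  have hdX : ∀ w ∈ X, (p : 𝓞 N) ∣ ∏ w' ∈ W.erase w, (w - w') := by
    intro w hw
    obtain ⟨β, hβ, rfl⟩ := Finset.mem_image.mp hw
    refine (dvd_left hm hζ p α τ e he β hβ).trans ?_
    have h1 : ∏ β' ∈ O, (β ^ p - (act τ β') ^ e) = ∏ w' ∈ Y, (β ^ p - w') := by
      rw [hY, Finset.prod_image hinjY]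
    rw [h1]
    apply Finset.prod_dvd_prod_of_subset
    intro y hy
    rw [Finset.mem_erase]
    refine ⟨?_, Finset.mem_union_right _ hy⟩
    rintro rfl
    exact Finset.disjoint_left.mp hdis hw hy
  have hdY : ∀ w ∈ Y, (p : 𝓞 N) ∣ ∏ w' ∈ W.erase w, (w - w') := by
    intro w hw
    obtain ⟨β, hβ, rfl⟩ := Finset.mem_image.mp hw
    refine (dvd_right hm hζ p α τ e he β hβ).trans ?_
    have h1 : ∏ β' ∈ O, ((act τ β) ^ e - β' ^ p) = ∏ w' ∈ X, ((act τ β) ^ e - w') := by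
      rw [hX, Finset.prod_image hinjX]
    rw [h1]
    apply Finset.prod_dvd_prod_of_subset
    intro y hy
    rw [Finset.mem_erase]
    refine ⟨?_, Finset.mem_union_left _ hy⟩
    rintro rfl
    exact Finset.disjoint_left.mp hdis hy hw
  have hdvd : ((p ^ (2 * d) : ℕ) : 𝓞 N) ∣ dprod W := by
    have h1 : ∏ w ∈ W, (p : 𝓞 N) ∣ dprod W := by
      rw [dprod]
      apply Finset.prod_dvd_prod_of_dvd
      intro w hw
      rcases Finset.mem_union.mp hw with h | h
      · exact hdX w h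
      · exact hdY w h
    rw [Finset.prod_const, hcW] at h1
    exact_mod_cast h1
  have h1 := lower (p ^ (2 * d)) (pow_pos hp.out.pos _) (dprod W) (dprod_ne_zero W) hdvd
  have hW0 : 0 < W.card := by omega
  have h2 := h1.trans (sum_dprod W hW0)
  -- heights
  have he' : (e : ℝ) ≤ p := by
    rcases he with ⟨h, -⟩ | ⟨h, -⟩
    · rw [h]
    · rw [h]
      exact_mod_cast hp.out.one_le
  have hα0 : 0 ≤ hW α := hW_nonneg α
  have h3 : ∑ w ∈ W, hW w ≤ (2 * d) * (p * hW α) := by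
    rw [hWdef, Finset.sum_union hdis]
    have h4 : ∀ w ∈ X, hW w ≤ p * hW α := by
      intro w hw
      obtain ⟨β, hβ, rfl⟩ := Finset.mem_image.mp hw
      obtain ⟨h, -, rfl⟩ := (mem_orb _ _ _).mp hβ
      rw [hW_pow, hW_act]
    have h5 : ∀ w ∈ Y, hW w ≤ p * hW α := by
      intro w hw
      obtain ⟨β, hβ, rfl⟩ := Finset.mem_image.mp hw
      obtain ⟨h, -, rfl⟩ := (mem_orb _ _ _).mp hβ
      rw [hW_pow, hW_act, hW_act]
      exact mul_le_mul_of_nonneg_right he' hα0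
    have h6 := Finset.sum_le_card_nsmul X _ _ h4
    have h7 := Finset.sum_le_card_nsmul Y _ _ h5
    rw [hcX, nsmul_eq_mul] at h6
    rw [hcY, nsmul_eq_mul] at h7
    linarith
  rw [hcW] at h2
  push_cast [Real.log_pow] at h2
  have hdR : (1 : ℝ) ≤ d := by exact_mod_cast hd0
  have hdD : (d : ℝ) ≤ D := by exact_mod_cast hD
  have h8 : (2 * d : ℝ) * (finrank ℚ N * (Real.log p - Real.log (2 * d))) ≤
      (2 * d : ℝ) * (2 * (2 * d - 1) * p * hW α) := by
    have h9 := mul_le_mul_of_nonneg_left h3 (by linarith : (0 : ℝ) ≤ 2 * (2 * d - 1))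
    nlinarith
  have h10 : (finrank ℚ N : ℝ) * (Real.log p - Real.log (2 * d)) ≤ 2 * (2 * d - 1) * p * hW α :=
    le_of_mul_le_mul_left h8 (by positivity)
  have h11 : Real.log (2 * d) ≤ Real.log (2 * D) := Real.log_le_log (by positivity) (by linarith)
  have hN0 : (0 : ℝ) ≤ finrank ℚ N := Nat.cast_nonneg _
  have hp0 : (0 : ℝ) ≤ p := Nat.cast_nonneg _
  calc (finrank ℚ N : ℝ) * (Real.log p - Real.log (2 * D))
      ≤ (finrank ℚ N : ℝ) * (Real.log p - Real.log (2 * d)) :=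
        mul_le_mul_of_nonneg_left (by linarith) hN0
    _ ≤ 2 * (2 * d - 1) * p * hW α := h10
    _ = (2 * (2 * d - 1)) * (p * hW α) := by ring
    _ ≤ (2 * (2 * D)) * (p * hW α) := by
        apply mul_le_mul_of_nonneg_right _ (by positivity)
        linarith
    _ = _ := by ring

end Pool.Agent.X186.MJ
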