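import Pool.Agent.X186.MJ.C

/-!
# The descent
-/

set_option autoImplicit false

open Finset Polynomial NumberField Module

namespace Pool.Agent.X186.MJ

variable {N : Type} [Field N] [NumberField N]

lemma pow_cong {R : Type} [CommRing R] {ζ : R} {m : ℕ} (hζ : ζ ^ m = 1)
    {a b : ℕ} (h : a ≡ b [MOD m]) : ζ ^ a = ζ ^ b := by
  rw [pow_eq_pow_mod a hζ, pow_eq_pow_mod b hζ, h]

lemma modEq_of_pow {R : Type} [CommRing R] [IsDomain R] {ζ : R} {m : ℕ} (hm : 0 < m)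
    (hζ : IsPrimitiveRoot ζ m) {a b : ℕ} (h : ζ ^ a = ζ ^ b) : a ≡ b [MOD m] := by
  rw [pow_eq_pow_mod a hζ.pow_eq_one, pow_eq_pow_mod b hζ.pow_eq_one] at h
  exact hζ.pow_inj (Nat.mod_lt _ hm) (Nat.mod_lt _ hm) h

lemma root_of_eq {R : Type} [CommRing R] [IsDomain R] {α : R} (h0 : α ≠ 0) {a b : ℕ} (hab : a < b)
    (h : α ^ a = α ^ b) : α ^ (b - a) = 1 := by
  have h1 : α ^ b = α ^ a * α ^ (b - a) := by rw [← pow_add, Nat.add_sub_cancel' hab.le]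
  rw [h1] at h
  have h2 : α ^ a * α ^ (b - a) = α ^ a * 1 := by rw [← h, mul_one]
  exact mul_left_cancel₀ (pow_ne_zero _ h0) h2

/-- a number whose `p`-th power is a conjugate is a root of unity -/
lemma root_of_frob (p : ℕ) (hp1 : 1 < p) (β : 𝓞 N) (h0 : β ≠ 0) (g : N ≃ₐ[ℚ] N)
    (h1 : β ^ p = act g β) : ∃ j : ℕ, 0 < j ∧ β ^ j = 1 := by
  have h2 : ∀ i : ℕ, ∃ g : N ≃ₐ[ℚ] N, β ^ (p ^ i) = act g β := by
    intro i
    induction i with
    | zero => exact ⟨1, by rw [pow_zero, pow_one, act_one]⟩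
    | succ i ih =>
      obtain ⟨g', hg'⟩ := ih
      refine ⟨g' * g, ?_⟩
      rw [act_mul, ← h1, map_pow, ← hg', ← pow_mul, pow_succ]
  choose g' hg' using h2
  obtain ⟨i, j, hij, hgij⟩ := Finite.exists_ne_map_eq_of_infinite g'
  rcases Nat.lt_or_gt_of_ne hij with hlt | hlt
  · have h3 : β ^ (p ^ i) = β ^ (p ^ j) := by rw [hg' i, hg' j, hgij]
    have h4 : p ^ i < p ^ j := Nat.pow_lt_pow_right hp1 hlt
    exact ⟨_, Nat.sub_pos_of_lt h4, root_of_eq h0 h4 h3⟩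
  · have h3 : β ^ (p ^ j) = β ^ (p ^ i) := by rw [hg' i, hg' j, hgij]
    have h4 : p ^ j < p ^ i := Nat.pow_lt_pow_right hp1 hlt
    exact ⟨_, Nat.sub_pos_of_lt h4, root_of_eq h0 h4 h3⟩

/-- conjugates are not roots of unity -/
lemma conj_root {α : 𝓞 N} (hroot : ∀ j : ℕ, 0 < j → α ^ j ≠ 1) (g : N ≃ₐ[ℚ] N) :
    ∀ j : ℕ, 0 < j → (act g α) ^ j ≠ 1 := by
  intro j hj h
  rw [← map_pow] at h
  apply hroot j hj
  have h2 : act g (α ^ j) = act g 1 := by rw [h, map_one]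
  exact (act g).injective h2

/-- the case in which `p` does not divide `m` -/
lemma base_case [IsGalois ℚ N] {m : ℕ} (hm : 0 < m) {ζ : 𝓞 N} (hζ : IsPrimitiveRoot ζ m)
    (p : ℕ) [hp : Fact p.Prime] (hpm : ¬ p ∣ m) (α : 𝓞 N) (h0 : α ≠ 0)
    (hroot : ∀ j : ℕ, 0 < j → α ^ j ≠ 1) (hbad : NoBad p ζ α) (D : ℕ)
    (hD : (orb ζ α).card ≤ D) :
    (finrank ℚ N : ℝ) * (Real.log p - Real.log (2 * D)) ≤ 2 * (2 * D) * p * hW α := by
  have hco : p.Coprime m := (Nat.Prime.coprime_iff_not_dvd hp.out).mpr hpm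
  obtain ⟨τ, hτ⟩ := exists_aut hm hζ p hco
  refine step_bound hm hζ p α τ 1 (Or.inr ⟨rfl, hτ⟩) hbad ?_ D hD
  intro β hβ β' hβ' h
  rw [← orb_eq ζ α β hβ] at hβ'
  obtain ⟨h', -, rfl⟩ := (mem_orb _ _ _).mp hβ'
  obtain ⟨g, -, rfl⟩ := (mem_orb _ _ _).mp hβ
  rw [pow_one, ← act_mul] at h
  have hne : act g α ≠ 0 := fun h => h0 ((act g).injective (by rw [h, map_zero]))
  obtain ⟨j, hj, hj1⟩ := root_of_frob p hp.out.one_lt _ hne _ h
  exact conj_root hroot g j hj hj1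

lemma act_root {m : ℕ} (hm : 0 < m) {ζ : 𝓞 N} (hζ : IsPrimitiveRoot ζ m) (g : N ≃ₐ[ℚ] N) :
    ∃ a : ℕ, a.Coprime m ∧ act g ζ = ζ ^ a := by
  have hne : NeZero m := ⟨hm.ne'⟩
  have h1 : (act g ζ) ^ m = 1 := by rw [← map_pow, hζ.pow_eq_one, map_one]
  obtain ⟨a, -, ha⟩ := hζ.eq_pow_of_pow_eq_one h1
  have h2 : IsPrimitiveRoot (act g ζ) m := hζ.map_of_injective (act g).injective
  rw [← ha] at h2
  exact ⟨a, (hζ.pow_iff_coprime hm a).mp h2, ha.symm⟩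

lemma act_pow_fixed (g : N ≃ₐ[ℚ] N) (x : 𝓞 N) (h : act g x = x) (k : ℕ) :
    act (g ^ k) x = x := by
  induction k with
  | zero => exact act_one x
  | succ k ih => rw [pow_succ, act_mul, h, ih]

/-- two numbers with the same `p`-th power -/
lemma exists_root {m p : ℕ} (hp0 : 0 < p) {M : ℕ} (hpm : m = p * M) (hm : 0 < m) {ζ : 𝓞 N}
    (hζ : IsPrimitiveRoot ζ m) (x y : 𝓞 N) (hx : x ≠ 0) (h : y ^ p = x ^ p) :
    ∃ c : ℕ, y = ζ ^ (c * M) * x := by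
  have hxN : (x : N) ≠ 0 := by
    intro h
    exact hx (RingOfIntegers.ext (by simpa using h))
  have hζN : IsPrimitiveRoot (ζ : N) m := hζ.map_of_injective (RingOfIntegers.coe_injective)
  have hξ : IsPrimitiveRoot ((ζ : N) ^ M) p := hζN.pow hm (by rw [hpm, mul_comm])
  have hpne : NeZero p := ⟨hp0.ne'⟩
  have h2 : ((y : N) / (x : N)) ^ p = 1 := by
    have h3 : (y : N) ^ p = (x : N) ^ p := by
      have := congrArg (fun y : 𝓞 N => (y : N)) h
      simpa using this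
    rw [div_pow, h3, div_self (pow_ne_zero _ hxN)]
  obtain ⟨c, -, hc⟩ := hξ.eq_pow_of_pow_eq_one h2
  refine ⟨c, RingOfIntegers.ext ?_⟩
  have h4 : ((ζ ^ (c * M) * x : 𝓞 N) : N) = (ζ : N) ^ (c * M) * (x : N) := by simp
  rw [h4, mul_comm c M, pow_mul, hc, div_mul_cancel₀ _ hxN]

/-- **The descent step.** -/
lemma descent_core (p M : ℕ) (hp0 : 0 < p) (hM : 0 < M) {ζ : 𝓞 N}
    (hζ : IsPrimitiveRoot ζ (p * M)) (α : 𝓞 N) (h0 : α ≠ 0) (a0 : ℕ)
    (hi : ∀ a : ℕ, a.Coprime (p * M) → a ≡ 1 [MOD M] → ∃ k : ℕ, a ≡ a0 ^ k [MOD (p * M)])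
    (hii : ∀ c : ℕ, ∃ e : ℕ, e * a0 + c * M ≡ e [MOD (p * M)]) (τ' : N ≃ₐ[ℚ] N)
    (hτ'ζ : act τ' ζ = ζ ^ a0) (h1 : (act τ' α) ^ p = α ^ p) [DecidableEq (𝓞 N)] :
    ∃ e : ℕ, orb (ζ ^ p) (ζ ^ e * α) ⊆ (orb ζ α).image (fun x => ζ ^ e * x) := by
  have hm : 0 < p * M := Nat.mul_pos hp0 hM
  have hζ1 : ζ ^ (p * M) = 1 := hζ.pow_eq_one
  obtain ⟨c, hc⟩ := exists_root hp0 rfl hm hζ α (act τ' α) h0 h1
  obtain ⟨e, he⟩ := hii c
  have hfix : act τ' (ζ ^ e * α) = ζ ^ e * α := by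
    rw [map_mul, map_pow, hτ'ζ, hc, ← pow_mul, ← mul_assoc, ← pow_add]
    congr 1
    apply pow_cong hζ1
    rwa [mul_comm a0 e]
  refine ⟨e, ?_⟩
  intro γ hγ
  obtain ⟨g, hg, rfl⟩ := (mem_orb _ _ _).mp hγ
  obtain ⟨a, ha, hga⟩ := act_root hm hζ g
  have h2 : a ≡ 1 [MOD M] := by
    rw [map_pow, hga, ← pow_mul] at hg
    have h3 := modEq_of_pow hm hζ hg
    have h4 : p * a ≡ p * 1 [MOD (p * M)] := by rwa [mul_one, mul_comm p a]
    exact Nat.ModEq.mul_left_cancel' hp0.ne' h4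
  obtain ⟨k, hk⟩ := hi a ha h2
  have hτk : ∀ k : ℕ, act (τ' ^ k) ζ = ζ ^ (a0 ^ k) := by
    intro k
    induction k with
    | zero => rw [pow_zero, pow_zero, pow_one, act_one]
    | succ k ih => rw [pow_succ, act_mul, hτ'ζ, map_pow, ih, ← pow_mul, pow_succ]
  have hgk : act g ζ = act (τ' ^ k) ζ := by
    rw [hga, hτk]
    exact pow_cong hζ1 hk
  obtain ⟨b, -, hb⟩ := act_root hm hζ (τ' ^ k)⁻¹
  have hfixh : act (g * (τ' ^ k)⁻¹) ζ = ζ := by
    rw [act_mul, hb, map_pow, hgk, ← map_pow, ← hb, act_act_inv]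
  rw [Finset.mem_image]
  refine ⟨act (g * (τ' ^ k)⁻¹) α, (mem_orb _ _ _).mpr ⟨_, hfixh, rfl⟩, ?_⟩
  have h5 : act (τ' ^ k) (ζ ^ e * α) = ζ ^ e * α := act_pow_fixed τ' _ hfix k
  have h6 : act g (ζ ^ e * α) = act (g * (τ' ^ k)⁻¹) (ζ ^ e * α) := by
    conv_rhs => rw [← h5]
    rw [← act_mul, inv_mul_cancel_right]
  rw [h6, map_mul, map_pow, hfixh]

/-- **The lower bound.** -/
theorem descent [IsGalois ℚ N] (p : ℕ) [hp : Fact p.Prime] (hp2 : p ≠ 2) (D : ℕ) :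
    ∀ m : ℕ, 0 < m → ∀ ζ α : 𝓞 N, IsPrimitiveRoot ζ m → α ≠ 0 → (∀ j : ℕ, 0 < j → α ^ j ≠ 1) →
      NoBad p ζ α → (orb ζ α).card ≤ D →
      (finrank ℚ N : ℝ) * (Real.log p - Real.log (2 * D)) ≤ 2 * (2 * D) * p * hW α := by
  classical
  intro m
  induction m using Nat.strong_induction_on with
  | _ m ih =>
    intro hm ζ α hζ h0 hroot hbad hD
    by_cases hpm : p ∣ m
    swap
    · exact base_case hm hζ p hpm α h0 hroot hbad D hD
    obtain ⟨M, rfl⟩ := hpm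
    have hM : 0 < M := Nat.pos_of_mul_pos_left hm
    have hp0 : 0 < p := hp.out.pos
    obtain ⟨a0, ha0, ha1, hi, hii⟩ := expo p M hp.out hp2 hM
    obtain ⟨τ, hτ⟩ := exists_aut hm hζ a0 ha0
    have hζ1 : ζ ^ (p * M) = 1 := hζ.pow_eq_one
    have hτp : (act τ ζ) ^ p = ζ ^ p := by
      rw [hτ, ← pow_mul]
      apply pow_cong hζ1
      have := ha1.mul_left' p
      rw [mul_one] at this
      rwa [mul_comm a0 p]
    by_cases hz : ∀ β ∈ orb ζ α, ∀ β' ∈ orb ζ α, β ^ p ≠ (act τ β') ^ p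
    · exact step_bound hm hζ p α τ p (Or.inl ⟨rfl, hτp⟩) hbad hz D hD
    push Not at hz
    obtain ⟨β, hβ, β', hβ', h1⟩ := hz
    have horb := orb_eq ζ α β hβ
    rw [← horb] at hβ'
    obtain ⟨h, hh, rfl⟩ := (mem_orb _ _ _).mp hβ'
    rw [← act_mul] at h1
    obtain ⟨g, -, hgβ⟩ := (mem_orb _ _ _).mp hβ
    have hβ0 : β ≠ 0 := by
      rw [← hgβ]
      exact fun h => h0 ((act g).injective (by rw [h, map_zero]))
    have hβr : ∀ j : ℕ, 0 < j → β ^ j ≠ 1 := by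
      rw [← hgβ]
      exact conj_root hroot g
    have hWβ : hW β = hW α := by rw [← hgβ, hW_act]
    obtain ⟨e, he⟩ := descent_core p M hp0 hM hζ β hβ0 a0 hi hii (τ * h)
      (by rw [act_mul, hh, hτ]) h1.symm
    have hη : (ζ ^ e) ^ (p * M) = 1 := by rw [← pow_mul, mul_comm, pow_mul, hζ1, one_pow]
    have hη0 : ζ ^ e ≠ 0 := pow_ne_zero _ (hζ.ne_zero hm.ne')
    have hlt : M < p * M := by
      have := hp.out.one_lt
      nlinarith
    have hres := ih M hlt hM (ζ ^ p) (ζ ^ e * β) (hζ.pow hm rfl) (mul_ne_zero hη0 hβ0) ?_ ?_ ?_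
    · rwa [hW_root β (ζ ^ e) _ hm hη, hWβ] at hres
    · intro j hj h2
      apply hβr (j * (p * M)) (Nat.mul_pos hj hm)
      have h3 : (ζ ^ e * β) ^ (j * (p * M)) = 1 := by rw [pow_mul, h2, one_pow]
      rw [mul_pow] at h3
      have h4 : (ζ ^ e) ^ (j * (p * M)) = 1 := by
        rw [mul_comm j, pow_mul, hη, one_pow]
      rwa [h4, one_mul] at h3
    · intro x hx y hy hxy
      obtain ⟨x', hx', rfl⟩ := Finset.mem_image.mp (he hx)
      obtain ⟨y', hy', rfl⟩ := Finset.mem_image.mp (he hy)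
      rw [horb] at hx' hy'
      rw [mul_pow, mul_pow] at hxy
      have := mul_left_cancel₀ (pow_ne_zero p hη0) hxy
      rw [hbad x' hx' y' hy' this]
    · refine ((Finset.card_le_card he).trans Finset.card_image_le).trans ?_
      rw [horb]
      exact hD

/-- there are no bad pairs if `p` divides `m` and is larger than the degree -/
lemma noBad_of_dvd (p M : ℕ) [hp : Fact p.Prime] (hM : 0 < M) {ζ : 𝓞 N}
    (hζ : IsPrimitiveRoot ζ (p * M)) (α : 𝓞 N) (h0 : α ≠ 0) (hcard : (orb ζ α).card < p) :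
    NoBad p ζ α := by
  classical
  have hp0 : 0 < p := hp.out.pos
  have hm : 0 < p * M := Nat.mul_pos hp0 hM
  intro β hβ β' hβ' h
  by_contra hne
  have horb := orb_eq ζ α β hβ
  rw [← horb] at hβ' hcard
  obtain ⟨k, -, hk⟩ := (mem_orb _ _ _).mp hβ
  have hβ0 : β ≠ 0 := by
    rw [← hk]
    exact fun h => h0 ((act k).injective (by rw [h, map_zero]))
  obtain ⟨g, hg, hgβ⟩ := (mem_orb _ _ _).mp hβ'
  obtain ⟨c, hc⟩ := exists_root hp0 rfl hm hζ β β' hβ0 h.symm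
  set ω := ζ ^ (c * M) with hω
  have hω1 : ω ≠ 1 := by
    intro h
    apply hne
    rw [hc, h, one_mul]
  have hωp : ω ^ p = 1 := by
    rw [hω, ← pow_mul]
    have : c * M * p = (p * M) * c := by ring
    rw [this, pow_mul, hζ.pow_eq_one, one_pow]
  have hωprim : IsPrimitiveRoot ω p := by
    have h1 := orderOf_eq_prime hωp hω1
    rw [← h1]
    exact IsPrimitiveRoot.orderOf ω
  have hgω : act g ω = ω := by rw [hω, map_pow, hg]
  have hpow : ∀ j : ℕ, act (g ^ j) β = ω ^ j * β := by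
    intro j
    induction j with
    | zero => rw [pow_zero, pow_zero, one_mul, act_one]
    | succ j ih =>
      rw [pow_succ', act_mul, ih, map_mul, map_pow, hgω, hgβ, hc, ← mul_assoc, ← pow_succ]
  have hle : p ≤ (orb ζ β).card := by
    have h1 : (Finset.range p).image (fun j => ω ^ j * β) ⊆ orb ζ β := by
      intro y hy
      obtain ⟨j, -, rfl⟩ := Finset.mem_image.mp hy
      exact (mem_orb _ _ _).mpr ⟨g ^ j, act_pow_fixed g ζ hg j, hpow j⟩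
    have h2 : ((Finset.range p).image (fun j => ω ^ j * β)).card = p := by
      rw [Finset.card_image_of_injOn, Finset.card_range]
      intro i hi j hj hij
      have h3 : ω ^ i = ω ^ j := mul_right_cancel₀ hβ0 hij
      exact hωprim.pow_inj (Finset.mem_range.mp hi) (Finset.mem_range.mp hj) h3
    rw [← h2]
    exact Finset.card_le_card h1
  omega

/-- the orbit for a multiple of the conductor -/
lemma orb_subset (ζ ξ α : 𝓞 N) (h : ∀ g : N ≃ₐ[ℚ] N, act g ξ = ξ → act g ζ = ζ) :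
    orb ξ α ⊆ orb ζ α := by
  intro β hβ
  obtain ⟨g, hg, rfl⟩ := (mem_orb _ _ _).mp hβ
  exact (mem_orb _ _ _).mpr ⟨g, h g hg, rfl⟩

/-- **The lower bound, without assumption on `p`-th powers.** -/
theorem bound [IsGalois ℚ N] (p : ℕ) [hp : Fact p.Prime] (hp2 : p ≠ 2) (D : ℕ) (hpD : D < p)
    (m : ℕ) (hm : 0 < m) (ζ α ξ : 𝓞 N) (hζ : IsPrimitiveRoot ζ m) (hξ : IsPrimitiveRoot ξ p)
    (h0 : α ≠ 0) (hroot : ∀ j : ℕ, 0 < j → α ^ j ≠ 1) (hD : (orb ζ α).card ≤ D) :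
    (finrank ℚ N : ℝ) * (Real.log p - Real.log (2 * D)) ≤ 2 * (2 * D) * p * hW α := by
  have hp0 : 0 < p := hp.out.pos
  by_cases hpm : p ∣ m
  · obtain ⟨M, rfl⟩ := hpm
    have hM : 0 < M := Nat.pos_of_mul_pos_left hm
    exact descent p hp2 D (p * M) hm ζ α hζ h0 hroot
      (noBad_of_dvd p M hM hζ α h0 (by omega)) hD
  · have hco : p.Coprime m := (Nat.Prime.coprime_iff_not_dvd hp.out).mpr hpm
    have hprim : IsPrimitiveRoot (ξ * ζ) (p * m) := by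
      have h1 := hξ.eq_orderOf
      have h2 := hζ.eq_orderOf
      have h3 : orderOf (ξ * ζ) = p * m := by
        rw [(Commute.all ξ ζ).orderOf_mul_eq_mul_orderOf_of_coprime (by rw [← h1, ← h2]; exact hco),
          ← h1, ← h2]
      rw [← h3]
      exact IsPrimitiveRoot.orderOf _
    have hsub : orb (ξ * ζ) α ⊆ orb ζ α := by
      apply orb_subset
      intro g hg
      -- `ζ` is a power of `ξ ζ`
      obtain ⟨u, hu1, hu2⟩ := Nat.chineseRemainder hco 0 1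
      have h1 : (ξ * ζ) ^ u = ζ := by
        rw [mul_pow, pow_cong hξ.pow_eq_one hu1, pow_cong hζ.pow_eq_one hu2, pow_zero, pow_one,
          one_mul]
      rw [← h1, map_pow, hg]
    have hcard := (Finset.card_le_card hsub).trans hD
    exact descent p hp2 D (p * m) (Nat.mul_pos hp0 hm) (ξ * ζ) α hprim h0 hroot
      (noBad_of_dvd p m hm hprim α h0 (by omega)) hcard

end Pool.Agent.X186.MJ
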