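import Pool.Agent.X186.MJ.D
import Pool.Agent.H225R3.Marg8

/-!
# Number fields near cyclotomic fields
-/

set_option autoImplicit false

open Finset Polynomial NumberField Module

namespace Pool.Agent.X186.MJ

open Pool.Agent.H225R3.Marg

lemma normal_aux (K : Type) [Field K] : Normal K (AlgebraicClosure K) := inferInstance

lemma normal_rat : Normal ℚ (AlgebraicClosure ℚ) := by
  have h := normal_aux ℚ
  have e : (AlgebraicClosure.instAlgebra ℚ : Algebra ℚ (AlgebraicClosure ℚ)) =
      DivisionRing.toRatAlgebra := Subsingleton.elim _ _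
  rwa [e] at h

/-- a common Galois extension -/
lemma exists_galois (k L E C : Type) [Field k] [NumberField k] [Field L] [NumberField L]
    [Algebra k L] [Field E] [NumberField E] [Algebra k E] [Field C] [NumberField C] :
    ∃ (N : Type) (_ : Field N) (_ : NumberField N) (_ : IsGalois ℚ N) (iL : L →+* N)
      (iE : E →+* N) (_ : C →+* N), iL.comp (algebraMap k L) = iE.comp (algebraMap k E) := by
  let Ω := AlgebraicClosure ℚ
  let φk : k →ₐ[ℚ] Ω := IsAlgClosed.lift
  let φC : C →ₐ[ℚ] Ω := IsAlgClosed.lift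
  let _ : Algebra k Ω := φk.toRingHom.toAlgebra
  have : FiniteDimensional k L := Module.Finite.of_restrictScalars_finite ℚ k L
  have : FiniteDimensional k E := Module.Finite.of_restrictScalars_finite ℚ k E
  let φL : L →ₐ[k] Ω := IsAlgClosed.lift
  let φE : E →ₐ[k] Ω := IsAlgClosed.lift
  let ψL : L →ₐ[ℚ] Ω := φL.toRingHom.toRatAlgHom
  let ψE : E →ₐ[ℚ] Ω := φE.toRingHom.toRatAlgHom
  let K0 : IntermediateField ℚ Ω := (ψL.fieldRange ⊔ ψE.fieldRange) ⊔ φC.fieldRange
  have h1 : FiniteDimensional ℚ ψL.fieldRange :=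
    (AlgEquiv.ofInjectiveField ψL).toLinearEquiv.finiteDimensional
  have h2 : FiniteDimensional ℚ ψE.fieldRange :=
    (AlgEquiv.ofInjectiveField ψE).toLinearEquiv.finiteDimensional
  have h3 : FiniteDimensional ℚ φC.fieldRange :=
    (AlgEquiv.ofInjectiveField φC).toLinearEquiv.finiteDimensional
  have h4 : FiniteDimensional ℚ ↥(ψL.fieldRange ⊔ ψE.fieldRange) :=
    IntermediateField.finiteDimensional_sup _ _
  have : FiniteDimensional ℚ K0 := IntermediateField.finiteDimensional_sup _ _
  let N : IntermediateField ℚ Ω := IntermediateField.normalClosure ℚ K0 Ω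
  have : FiniteDimensional ℚ N := normalClosure.is_finiteDimensional ℚ K0 Ω
  have : Normal ℚ Ω := normal_rat
  have : Normal ℚ N := normalClosure.normal ℚ K0 Ω
  have : IsGalois ℚ N := ⟨⟩
  have : NumberField N := ⟨⟩
  have hle : K0 ≤ N := IntermediateField.le_normalClosure K0
  have hle1 : ψL.fieldRange ⊔ ψE.fieldRange ≤ K0 := le_sup_left
  have hL : ∀ x : L, ψL x ∈ N := fun x =>
    hle (hle1 (le_sup_left (a := ψL.fieldRange) ⟨x, rfl⟩))
  have hE : ∀ x : E, ψE x ∈ N := fun x =>
    hle (hle1 (le_sup_right (b := ψE.fieldRange) ⟨x, rfl⟩))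
  have hC : ∀ x : C, φC x ∈ N := fun x => hle (le_sup_right (b := φC.fieldRange) ⟨x, rfl⟩)
  refine ⟨N, inferInstance, inferInstance, inferInstance,
    (ψL.codRestrict N.toSubalgebra hL).toRingHom, (ψE.codRestrict N.toSubalgebra hE).toRingHom,
    (φC.codRestrict N.toSubalgebra hC).toRingHom, ?_⟩
  ext x
  have h1 : φL (algebraMap k L x) = φE (algebraMap k E x) := by
    rw [φL.commutes, φE.commutes]
  exact h1

/-- the number of homomorphisms with a given value at `ζ` -/
lemma card_hom (E N : Type) [Field E] [NumberField E] [Field N] [NumberField N] (ζ : E)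
    (i : E →+* N) (J : Finset (E →+* N)) (hJ : ∀ j ∈ J, j ζ = i ζ) :
    J.card ≤ finrank (IntermediateField.adjoin ℚ {ζ}) E := by
  classical
  set F := IntermediateField.adjoin ℚ {ζ} with hF
  obtain ⟨σ0⟩ : Nonempty (N →+* ℂ) := inferInstance
  have hagree : ∀ j ∈ J, ∀ y ∈ F, j y = i y := by
    intro j hj y hy
    have h1 : F ≤ (AlgHom.equalizer j.toRatAlgHom i.toRatAlgHom).toIntermediateField
        (fun z hz => by
          have hz' : j z = i z := hz
          show j z⁻¹ = i z⁻¹
          rw [map_inv₀, map_inv₀, hz']) := by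
      rw [hF, IntermediateField.adjoin_le_iff]
      intro z hz
      rw [Set.mem_singleton_iff] at hz
      subst hz
      exact hJ j hj
    exact h1 hy
  rw [← natCard_ext F E ((σ0.comp i).comp (algebraMap F E)), Nat.card_eq_fintype_card,
    Fintype.card_subtype]
  have h2 : J.card = (J.image (fun j => σ0.comp j)).card := by
    rw [Finset.card_image_of_injective]
    intro j j' h
    ext y
    have := RingHom.congr_fun h y
    exact σ0.injective this
  rw [h2]
  apply Finset.card_le_card
  intro τ hτ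
  rw [Finset.mem_image] at hτ
  obtain ⟨j, hj, rfl⟩ := hτ
  rw [Finset.mem_filter]
  refine ⟨Finset.mem_univ _, ?_⟩
  ext y
  show σ0 (j (y : E)) = σ0 (i (y : E))
  rw [hagree j hj _ y.2]

end Pool.Agent.X186.MJ
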