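import Pool.Agent.X186.MJ.F

/-!
# Integral matrices over number fields near cyclotomic fields
-/

set_option autoImplicit false

open Finset Polynomial Module NumberField IntermediateField

namespace Pool.Agent.X186.MJ

open Pool.Agent.H225R3.Marg

/-- **From eigenvalues to matrices.** -/
theorem gap_of (k : Type) [Field k] [NumberField k] (n : ℕ) (S : Finset (k →+* ℂ))
    (A : Matrix (Fin n) (Fin n) (𝓞 k)) (P : ℝ → Prop)
    (hP : ∀ (L : Type) [Field L] [NumberField L] [Algebra k L] (x : L) (R : ℝ), x ≠ 0 →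
      IsIntegral ℤ x → (∀ m : ℕ, 0 < m → x ^ m ≠ 1) → 1 ≤ R →
      (∀ τ : L →+* ℂ, τ.comp (algebraMap k L) ∉ S → ‖τ x‖ ≤ 1) → (∀ τ : L →+* ℂ, ‖τ x‖ ≤ R) →
      finrank k L ≤ n → P R)
    (hA : IsUnit A)
    (hout : ∀ σ : k →+* ℂ, σ ∉ S → ∀ l : ℂ, ((emb σ).mapMatrix A).charpoly.IsRoot l → ‖l‖ ≤ 1)
    (hnil : ∀ N : ℕ, 0 < N → ¬ IsNilpotent (A ^ N - 1)) :
    ∃ σ ∈ S, ∃ l : ℂ, ((emb σ).mapMatrix A).charpoly.IsRoot l ∧ 1 < ‖l‖ ∧ P ‖l‖ := by
  classical
  -- a root which is not a root of unity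
  set f : 𝓞 k →+* AlgebraicClosure k :=
    (algebraMap k (AlgebraicClosure k)).comp (algebraMap (𝓞 k) k) with hf
  have hfinj : Function.Injective f :=
    (algebraMap k (AlgebraicClosure k)).injective.comp
      (FaithfulSMul.algebraMap_injective (𝓞 k) k)
  obtain ⟨l, hl, hlN⟩ : ∃ l, (A.charpoly.map f).IsRoot l ∧ ∀ N : ℕ, 0 < N → l ^ N ≠ 1 := by
    by_contra hcon
    push Not at hcon
    obtain ⟨N, hN, h⟩ := nilp_of_roots f hfinj A hcon
    exact hnil N hN h
  have hspec : l ∈ spectrum (AlgebraicClosure k) (f.mapMatrix A) := by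
    rw [Matrix.mem_spectrum_iff_isRoot_charpoly]
    have : (f.mapMatrix A).charpoly = A.charpoly.map f := by rw [← Matrix.charpoly_map]; rfl
    rw [this]
    exact hl
  have hl0 : l ≠ 0 := by
    rintro rfl
    exact (spectrum.zero_notMem_iff _).mpr (hA.map f.mapMatrix) hspec
  -- the field
  have hlint : IsIntegral k l := Algebra.IsIntegral.isIntegral l
  let L := IntermediateField.adjoin k {l}
  have : FiniteDimensional k L := IntermediateField.adjoin.finiteDimensional hlint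
  have : CharZero L := charZero_of_injective_algebraMap (algebraMap k L).injective
  have : NumberField L := NumberField.of_module_finite k L
  let x : L := ⟨l, IntermediateField.mem_adjoin_simple_self k l⟩
  have hxl : algebraMap L (AlgebraicClosure k) x = l := rfl
  set g : 𝓞 k →+* L := (algebraMap k L).comp (algebraMap (𝓞 k) k) with hg
  have hgf : (algebraMap L (AlgebraicClosure k)).comp g = f := by
    rw [hg, hf, ← RingHom.comp_assoc]
    rfl
  have hx0 : eval₂ g x A.charpoly = 0 := by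
    apply (algebraMap L (AlgebraicClosure k)).injective
    rw [map_zero, hom_eval₂, hgf, hxl]
    rw [IsRoot, eval_map] at hl
    exact hl
  have hxint : IsIntegral ℤ x := by
    have h1 : IsIntegral (𝓞 k) x := by
      refine ⟨A.charpoly, A.charpoly_monic, ?_⟩
      have : algebraMap (𝓞 k) L = g := rfl
      rw [this]
      exact hx0
    have : IsScalarTower ℤ (𝓞 k) L := IsScalarTower.of_algebraMap_eq' (RingHom.ext_int _ _)
    exact isIntegral_trans x h1
  have hxne : x ≠ 0 := by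
    intro h
    apply hl0
    rw [← hxl, h, map_zero]
  have hxroot : ∀ N : ℕ, 0 < N → x ^ N ≠ 1 := by
    intro N hN h
    apply hlN N hN
    rw [← hxl, ← map_pow, h, map_one]
  have hdeg : finrank k L ≤ n := by
    have h1 : finrank k L = (minpoly k l).natDegree := IntermediateField.adjoin.finrank hlint
    rw [h1]
    have h2 : (A.charpoly.map (algebraMap (𝓞 k) k)).Monic := A.charpoly_monic.map _
    have h3 : aeval l (A.charpoly.map (algebraMap (𝓞 k) k)) = 0 := by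
      rw [aeval_def, eval₂_map]
      rw [IsRoot, eval_map] at hl
      exact hl
    refine (natDegree_le_of_dvd (minpoly.dvd k l h3) h2.ne_zero).trans ?_
    rw [A.charpoly_monic.natDegree_map, Matrix.charpoly_natDegree_eq_dim, Fintype.card_fin]
  -- norms of the conjugates
  have hτroot : ∀ τ : L →+* ℂ,
      ((emb (τ.comp (algebraMap k L))).mapMatrix A).charpoly.IsRoot (τ x) := by
    intro τ
    have h1 : ((emb (τ.comp (algebraMap k L))).mapMatrix A).charpoly =
        A.charpoly.map (emb (τ.comp (algebraMap k L))) := by rw [← Matrix.charpoly_map]; rfl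
    rw [h1, IsRoot, eval_map]
    have h2 : emb (τ.comp (algebraMap k L)) = τ.comp g := rfl
    rw [h2, ← hom_eval₂, hx0, map_zero]
  have hτout : ∀ τ : L →+* ℂ, τ.comp (algebraMap k L) ∉ S → ‖τ x‖ ≤ 1 :=
    fun τ hτ => hout _ hτ _ (hτroot τ)
  obtain ⟨τ1, hτ1⟩ : ∃ τ1 : L →+* ℂ, 1 < ‖τ1 x‖ := by
    by_contra hcon
    push Not at hcon
    obtain ⟨N, hN, h⟩ := NumberField.Embeddings.pow_eq_one_of_norm_le_one L ℂ hxne hxint hcon
    exact hxroot N hN h
  obtain ⟨τ0, -, hmax⟩ := Finset.exists_max_image (univ : Finset (L →+* ℂ)) (fun τ => ‖τ x‖)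
    ⟨τ1, Finset.mem_univ _⟩
  have hτ0 : 1 < ‖τ0 x‖ := hτ1.trans_le (hmax τ1 (Finset.mem_univ _))
  have hmem : τ0.comp (algebraMap k L) ∈ S := by
    by_contra h
    exact absurd hτ0 (not_lt.mpr (hτout τ0 h))
  refine ⟨_, hmem, τ0 x, hτroot τ0, hτ0, ?_⟩
  exact hP L x ‖τ0 x‖ hxne hxint hxroot hτ0.le hτout (fun τ => hmax τ (Finset.mem_univ _)) hdeg

/-- from a large eigenvalue to an eigenvalue away from `1` -/
lemma exists_eps (N : ℕ) (μ : ℝ) (hμ : 0 < μ) :
    ∃ ε : ℝ, 0 < ε ∧ ∀ l : ℂ, μ ≤ (N : ℝ) * Real.log ‖l‖ → 1 < ‖l‖ → ε ≤ ‖l - 1‖ := by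
  obtain ⟨ε, hε, hεc⟩ : ∃ ε : ℝ, 0 < ε ∧ (N : ℝ) * Real.log (1 + ε) < μ := by
    have hcont : ContinuousAt (fun y : ℝ => (N : ℝ) * Real.log (1 + y)) 0 := by
      refine continuousAt_const.mul (ContinuousAt.log (by fun_prop) (by norm_num))
    have h2 := hcont.tendsto
    simp only [add_zero, Real.log_one, mul_zero] at h2
    have h3 : ∀ᶠ y : ℝ in nhdsWithin 0 (Set.Ioi 0), (N : ℝ) * Real.log (1 + y) < μ :=
      (h2.mono_left nhdsWithin_le_nhds).eventually (gt_mem_nhds hμ)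
    obtain ⟨y, hy1, hy2⟩ := (h3.and self_mem_nhdsWithin).exists
    exact ⟨y, hy2, hy1⟩
  refine ⟨ε, hε, fun l hlow hl1 => ?_⟩
  by_contra hcon
  push Not at hcon
  have h1 : ‖l‖ ≤ 1 + ε := by
    have h2 : ‖l‖ ≤ ‖l - 1‖ + ‖(1 : ℂ)‖ := by
      have := norm_add_le (l - 1) 1
      rwa [sub_add_cancel] at this
    rw [norm_one] at h2
    linarith
  have h3 : Real.log ‖l‖ ≤ Real.log (1 + ε) := Real.log_le_log (by linarith) h1
  have h4 := mul_le_mul_of_nonneg_left h3 (Nat.cast_nonneg (α := ℝ) N)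
  linarith

/-- **The lower bound for matrices.** -/
theorem gap_cyc (k : Type) [Field k] [NumberField k] (E : Type) [Field E] [NumberField E]
    [Algebra k E] (m : ℕ) (hm : 0 < m) (ζ : E) (hζ : IsPrimitiveRoot ζ m) (B n : ℕ)
    (hB : finrank (IntermediateField.adjoin ℚ {ζ}) E ≤ B) (S : Finset (k →+* ℂ))
    (A : Matrix (Fin n) (Fin n) (𝓞 k)) (hA : IsUnit A)
    (hout : ∀ σ : k →+* ℂ, σ ∉ S → ∀ l : ℂ, ((emb σ).mapMatrix A).charpoly.IsRoot l → ‖l‖ ≤ 1)
    (hnil : ∀ N : ℕ, 0 < N → ¬ IsNilpotent (A ^ N - 1)) :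
    ∃ σ ∈ S, ∃ l : ℂ, ((emb σ).mapMatrix A).charpoly.IsRoot l ∧ 1 < ‖l‖ ∧
      (finrank ℚ k : ℝ) * Real.log 2 ≤
        32 * ((n * B : ℕ) : ℝ) ^ 2 * S.card * Real.log ‖l‖ := by
  refine gap_of k n S A (fun R => (finrank ℚ k : ℝ) * Real.log 2 ≤
    32 * ((n * B : ℕ) : ℝ) ^ 2 * S.card * Real.log R) ?_ hA hout hnil
  intro L _ _ _ x R hx0 hxi hroot hR hout' hin hdeg
  exact low m hm ζ hζ B n hB hdeg S x R hx0 hxi hroot hR hout' hin

end Pool.Agent.X186.MJ
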