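import Pool.Agent.X186.MJ.F
import Pool.Agent.TH53.UG1

/-!
# Mahler measures of numbers of bounded degree over cyclotomic fields
-/

set_option autoImplicit false

open Finset Polynomial NumberField Module IntermediateField

namespace Pool.Agent.X186.MJ

open Pool.Agent.H225R3.Marg Pool.Agent.W963.GE

/-- a number of degree at most `D` over the field generated by some root of unity -/
def NearCycNum (D : ℕ) (x : ℂ) : Prop :=
  ∃ ζ : ℂ, (∃ m : ℕ, 0 < m ∧ ζ ^ m = 1) ∧
    (minpoly (IntermediateField.adjoin ℚ {ζ}) x).natDegree ≤ D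

/-- the Mahler measure as a product over the embeddings -/
lemma MM_emb {x : ℂ} (hx : IsIntegral ℤ x) (K : Type) [Field K] [NumberField K] (α : K)
    (φ : K →+* ℂ) (hφ : φ α = x) (hα : IntermediateField.adjoin ℚ {α} = ⊤) :
    Real.log (MM x) = ∑ τ : K →+* ℂ, Real.log (max 1 ‖τ α‖) := by
  classical
  have hαi : IsIntegral ℤ α := by
    rw [← hφ] at hx
    exact (isIntegral_algHom_iff φ.toIntAlgHom φ.injective).mp hx
  have hmin : minpoly ℤ α = minpoly ℤ x := by
    rw [← hφ]
    exact (minpoly.algHom_eq φ.toIntAlgHom φ.injective α).symm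
  have hmem : ∀ τ : K →+* ℂ, τ α ∈ Pool.Agent.TH53.UG.conjs x := by
    intro τ
    rw [Pool.Agent.TH53.UG.mem_conjs hx, ← hmin]
    have h1 := Polynomial.aeval_algHom_apply τ.toIntAlgHom α (minpoly ℤ α)
    rw [minpoly.aeval, map_zero] at h1
    exact h1
  have hinj : Function.Injective (fun τ : K →+* ℂ => τ α) := by
    intro τ τ' h
    have h1 : ∀ y ∈ (⊤ : IntermediateField ℚ K), τ y = τ' y := by
      intro y hy
      rw [← hα] at hy
      have h2 : IntermediateField.adjoin ℚ {α} ≤
          (AlgHom.equalizer τ.toRatAlgHom τ'.toRatAlgHom).toIntermediateField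
          (fun z hz => by
            have hz' : τ z = τ' z := hz
            show τ z⁻¹ = τ' z⁻¹
            rw [map_inv₀, map_inv₀, hz']) := by
        rw [IntermediateField.adjoin_le_iff]
        intro z hz
        rw [Set.mem_singleton_iff] at hz
        subst hz
        exact h
      exact h2 hy
    ext y
    exact h1 y IntermediateField.mem_top
  have hcard : Fintype.card (K →+* ℂ) = (Pool.Agent.TH53.UG.conjs x).card := by
    rw [Pool.Agent.TH53.UG.card_conjs hx, NumberField.Embeddings.card, ← hmin]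
    have h1 : finrank ℚ K = (minpoly ℚ α).natDegree := by
      rw [← IntermediateField.finrank_top' (F := ℚ) (E := K), ← hα,
        IntermediateField.adjoin.finrank (Algebra.IsIntegral.isIntegral α)]
    rw [h1, minpoly.isIntegrallyClosed_eq_field_fractions' ℚ hαi, (minpoly.monic hαi).natDegree_map]
  have himage : (univ : Finset (K →+* ℂ)).image (fun τ => τ α) = Pool.Agent.TH53.UG.conjs x := by
    apply Finset.eq_of_subset_of_card_le
    · intro a ha
      obtain ⟨τ, -, rfl⟩ := Finset.mem_image.mp ha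
      exact hmem τ
    · rw [Finset.card_image_of_injective _ hinj, Finset.card_univ, hcard]
  rw [Pool.Agent.TH53.UG.MM_prod hx, ← himage, Finset.prod_image (fun a _ b _ h => hinj h),
    Real.log_prod (fun τ _ => (lt_of_lt_of_le one_pos (le_max_left _ _)).ne')]

/-- **Mahler measures of numbers of bounded degree over cyclotomic fields.** -/
theorem mahler_cyc {x : ℂ} (hx : IsIntegral ℤ x) (h0 : x ≠ 0) (hroot : ∀ m > 0, x ^ m ≠ 1)
    (D : ℕ) (hD : NearCycNum D x) :
    ((minpoly ℤ x).natDegree : ℝ) * Real.log 2 ≤ 32 * (D : ℝ) ^ 2 * Real.log (MM x) := by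
  classical
  obtain ⟨ζ, ⟨m', hm', hζm⟩, hdeg⟩ := hD
  -- the order of the root of unity
  have hζo : 0 < orderOf ζ := orderOf_pos_iff.mpr (isOfFinOrder_iff_pow_eq_one.mpr ⟨m', hm', hζm⟩)
  have hζ : IsPrimitiveRoot ζ (orderOf ζ) := IsPrimitiveRoot.orderOf ζ
  set m := orderOf ζ with hm
  have hζint : IsIntegral ℤ ζ :=
    IsIntegral.of_pow hζo (by rw [hζ.pow_eq_one]; exact isIntegral_one)
  have hxQ : IsIntegral ℚ x := hx.tower_top
  have hζQ : IsIntegral ℚ ζ := hζint.tower_top
  -- the fields
  set L0 := IntermediateField.adjoin ℚ {x} with hL0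
  set F := IntermediateField.adjoin ℚ {ζ} with hF
  have hfin0 : FiniteDimensional ℚ L0 := adjoin.finiteDimensional hxQ
  have hfinF : FiniteDimensional ℚ F := adjoin.finiteDimensional hζQ
  have hL0n : NumberField L0 := ⟨⟩
  set L' : IntermediateField ℚ ℂ := L0 ⊔ F with hL'
  have hfin' : FiniteDimensional ℚ L' := IntermediateField.finiteDimensional_sup _ _
  have hL'n : NumberField L' := ⟨⟩
  have hxF : IsIntegral F x := hxQ.tower_top
  have hD1 : 0 < D := (minpoly.natDegree_pos hxF).trans_le hdeg
  -- the prime number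
  obtain ⟨p, hpp, hp1, hp2⟩ := Nat.exists_prime_lt_and_le_two_mul (4 * D) (by omega)
  have hfact : Fact p.Prime := ⟨hpp⟩
  have hpne : p ≠ 2 := by omega
  have hpnz : NeZero p := ⟨hpp.ne_zero⟩
  obtain ⟨N, _, _, _, iL, -, iC, -⟩ := exists_galois ℚ L' ℚ (CyclotomicField p ℚ)
  have hx' : x ∈ L' := (le_sup_left : L0 ≤ L') (mem_adjoin_simple_self ℚ x)
  have hζ'm : ζ ∈ L' := (le_sup_right : F ≤ L') (mem_adjoin_simple_self ℚ ζ)
  let xL : L' := ⟨x, hx'⟩
  let ζL : L' := ⟨ζ, hζ'm⟩
  have hinjL : Function.Injective (algebraMap L' ℂ) := (algebraMap L' ℂ).injective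
  have hxLint : IsIntegral ℤ xL := by
    have : IsIntegral ℤ (algebraMap L' ℂ xL) := hx
    exact (isIntegral_algebraMap_iff hinjL).mp this
  have hζLprim : IsPrimitiveRoot ζL m :=
    IsPrimitiveRoot.of_map_of_injective (f := algebraMap L' ℂ) (by exact hζ) hinjL
  have hαint : IsIntegral ℤ (iL xL) := hxLint.map iL.toIntAlgHom
  have hζLint : IsIntegral ℤ ζL := by
    have : IsIntegral ℤ (algebraMap L' ℂ ζL) := hζint
    exact (isIntegral_algebraMap_iff hinjL).mp this
  have hζNint : IsIntegral ℤ (iL ζL) := hζLint.map iL.toIntAlgHom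
  let α : 𝓞 N := ⟨iL xL, hαint⟩
  let ζ' : 𝓞 N := ⟨iL ζL, hζNint⟩
  have hζ' : IsPrimitiveRoot ζ' m := by
    have h1 : IsPrimitiveRoot (algebraMap (𝓞 N) N ζ') m := hζLprim.map_of_injective iL.injective
    exact IsPrimitiveRoot.of_map_of_injective (f := algebraMap (𝓞 N) N) h1
      RingOfIntegers.coe_injective
  have hα0 : α ≠ 0 := by
    intro h
    have h1 : iL xL = 0 := by
      have : ((α : 𝓞 N) : N) = 0 := by rw [h]; rfl
      exact this
    have h2 : xL = 0 := (map_eq_zero iL).mp h1
    exact h0 (congrArg (algebraMap L' ℂ) h2)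
  have hαroot : ∀ j : ℕ, 0 < j → α ^ j ≠ 1 := by
    intro j hj h
    have h2 : (iL xL) ^ j = 1 := by
      have h1 : algebraMap (𝓞 N) N (α ^ j) = 1 := by rw [h, map_one]
      rw [map_pow] at h1
      exact h1
    rw [← map_pow] at h2
    have h3 : xL ^ j = 1 := iL.injective (by rw [h2, map_one])
    have h4 := congrArg (algebraMap L' ℂ) h3
    rw [map_pow, map_one] at h4
    exact hroot j hj h4
  obtain ⟨z, hz⟩ := exists_prim ℚ p
  have hξint : IsIntegral ℤ (iC z) :=
    (IsIntegral.of_pow hpp.pos (by rw [hz.pow_eq_one]; exact isIntegral_one)).map iC.toIntAlgHom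
  let ξ : 𝓞 N := ⟨_, hξint⟩
  have hξ : IsPrimitiveRoot ξ p := by
    have h1 : IsPrimitiveRoot (algebraMap (𝓞 N) N ξ) p := hz.map_of_injective iC.injective
    exact IsPrimitiveRoot.of_map_of_injective (f := algebraMap (𝓞 N) N) h1
      RingOfIntegers.coe_injective
  -- the number of conjugates
  have hle : F ≤ L' := le_sup_right
  let inc : F →+* L' := (IntermediateField.inclusion hle).toRingHom
  have hcard : (orb ζ' α).card ≤ D := by
    have hsub : (orb ζ' α).image (fun y : 𝓞 N => (y : N)) ⊆
        ((minpoly F x).map (iL.comp inc)).roots.toFinset := by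
      intro y hy
      obtain ⟨β, hβ, rfl⟩ := Finset.mem_image.mp hy
      obtain ⟨g, hg, rfl⟩ := (mem_orb _ _ _).mp hβ
      rw [Multiset.mem_toFinset, mem_roots ((minpoly.monic hxF).map _).ne_zero, IsRoot, eval_map,
        act_coe]
      have h1 : (g.toRingEquiv : N →+* N).comp (iL.comp inc) = iL.comp inc := by
        have h2 : g (iL ζL) = iL ζL := congrArg (fun y : 𝓞 N => (y : N)) hg
        have h3 : ∀ y ∈ (⊤ : IntermediateField ℚ F), g (iL (inc y)) = iL (inc y) := by
          intro y _
          have h4 : F ≤ ((AlgHom.equalizer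
              ((g.toRingEquiv : N →+* N).comp iL).toRatAlgHom iL.toRatAlgHom).toIntermediateField
              (fun z hz => by
                have hz' : g (iL z) = iL z := hz
                show g (iL z⁻¹) = iL z⁻¹
                rw [map_inv₀, map_inv₀, hz'])).map L'.val := by
            rw [hF, IntermediateField.adjoin_le_iff]
            intro w hw
            rw [Set.mem_singleton_iff] at hw
            subst hw
            exact ⟨ζL, h2, rfl⟩
          obtain ⟨w, hw, hwy⟩ := h4 y.2
          have h5 : w = inc y := Subtype.ext hwy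
          rw [← h5]
          exact hw
        ext y
        exact h3 y IntermediateField.mem_top
      rw [← h1]
      have h6 : eval₂ inc xL (minpoly F x) = 0 := by
        apply hinjL
        rw [hom_eval₂, map_zero]
        exact minpoly.aeval F x
      have h7 := congrArg (fun y => (g.toRingEquiv : N →+* N) (iL y)) h6
      simp only [hom_eval₂, map_zero] at h7
      exact h7
    have hc : (orb ζ' α).card = ((orb ζ' α).image (fun y : 𝓞 N => (y : N))).card := by
      rw [Finset.card_image_of_injective _ RingOfIntegers.coe_injective]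
    rw [hc]
    refine (Finset.card_le_card hsub).trans ?_
    refine (Multiset.toFinset_card_le _).trans ((card_roots' _).trans ?_)
    rw [(minpoly.monic hxF).natDegree_map]
    exact hdeg
  have hdesc := bound p hpne D (by omega) m hζo ζ' α ξ hζ' hξ hα0 hαroot hcard
  -- the height
  have hle0 : L0 ≤ L' := le_sup_left
  let inc0 : L0 →+* L' := (IntermediateField.inclusion hle0).toRingHom
  let _ : Algebra L0 N := (iL.comp inc0).toAlgebra
  let x0 : L0 := AdjoinSimple.gen ℚ x
  have hx0α : algebraMap L0 N x0 = (α : N) := by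
    show iL (inc0 x0) = iL xL
    congr 1
  have hh : hW α = finrank L0 N * Real.log (MM x) := by
    have h1 : Real.log (MM x) = ∑ τ : L0 →+* ℂ, Real.log (max 1 ‖τ x0‖) := by
      refine MM_emb hx L0 x0 (algebraMap L0 ℂ) (AdjoinSimple.algebraMap_gen ℚ x) ?_
      rw [Field.primitive_element_iff_minpoly_natDegree_eq]
      exact (congrArg natDegree (minpoly_gen ℚ x)).trans (adjoin.finrank hxQ).symm
    rw [h1, Finset.mul_sum, hW]
    rw [← Finset.sum_fiberwise_of_maps_to (s := (univ : Finset (N →+* ℂ)))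
      (t := (univ : Finset (L0 →+* ℂ))) (g := fun σ => σ.comp (algebraMap L0 N))
      (fun _ _ => Finset.mem_univ _)]
    refine Finset.sum_congr rfl fun τ _ => ?_
    have h2 : ∀ σ ∈ (univ : Finset (N →+* ℂ)).filter (fun σ => σ.comp (algebraMap L0 N) = τ),
        Real.log (max 1 ‖σ (α : N)‖) = Real.log (max 1 ‖τ x0‖) := by
      intro σ hσ
      rw [← (Finset.mem_filter.mp hσ).2, ← hx0α]
      rfl
    rw [Finset.sum_congr rfl h2, Finset.sum_const, nsmul_eq_mul]
    congr 1
    have h3 := natCard_ext L0 N τ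
    rw [Nat.card_eq_fintype_card, Fintype.card_subtype] at h3
    exact_mod_cast h3
  have hdegx : finrank ℚ L0 = (minpoly ℤ x).natDegree := by
    rw [hL0, adjoin.finrank hxQ, minpoly.isIntegrallyClosed_eq_field_fractions' ℚ hx]
    exact (minpoly.monic hx).natDegree_map _
  have htow : (finrank ℚ N : ℝ) = (minpoly ℤ x).natDegree * finrank L0 N := by
    rw [← hdegx]
    exact_mod_cast (Module.finrank_mul_finrank ℚ L0 N).symm
  have hfdN : FiniteDimensional L0 N := Module.Finite.of_restrictScalars_finite ℚ L0 N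
  have hkN : (0 : ℝ) < finrank L0 N := by exact_mod_cast (finrank_pos : 0 < finrank L0 N)
  have hDR : (0 : ℝ) < D := by exact_mod_cast hD1
  have hlogp : Real.log 2 ≤ Real.log p - Real.log (2 * D) := by
    have h1 : (4 * D : ℝ) ≤ p := by exact_mod_cast hp1.le
    have h2 := Real.log_le_log (by positivity) h1
    have h3 : (4 * D : ℝ) = 2 * (2 * D) := by ring
    rw [h3, Real.log_mul (by norm_num) (by positivity)] at h2
    linarith
  have hple : (p : ℝ) ≤ 8 * D := by
    have h1 : p ≤ 8 * D := by omega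
    exact_mod_cast h1
  have hα' : 0 ≤ hW α := hW_nonneg α
  have h1 : (finrank ℚ N : ℝ) * Real.log 2 ≤ 32 * (D : ℝ) ^ 2 * hW α := by
    have hN0 : (0 : ℝ) ≤ finrank ℚ N := Nat.cast_nonneg _
    have h2 := mul_le_mul_of_nonneg_left hlogp hN0
    have h3 : 2 * (2 * (D : ℝ)) * p * hW α ≤ 2 * (2 * (D : ℝ)) * (8 * D) * hW α := by
      apply mul_le_mul_of_nonneg_right _ hα'
      exact mul_le_mul_of_nonneg_left hple (by positivity)
    calc (finrank ℚ N : ℝ) * Real.log 2 ≤ 2 * (2 * (D : ℝ)) * p * hW α := h2.trans hdesc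
      _ ≤ 2 * (2 * (D : ℝ)) * (8 * D) * hW α := h3
      _ = _ := by ring
  rw [htow, hh] at h1
  have h3 : (finrank L0 N : ℝ) * ((minpoly ℤ x).natDegree * Real.log 2) ≤
      finrank L0 N * (32 * (D : ℝ) ^ 2 * Real.log (MM x)) := by
    calc (finrank L0 N : ℝ) * ((minpoly ℤ x).natDegree * Real.log 2)
        = (minpoly ℤ x).natDegree * finrank L0 N * Real.log 2 := by ring
      _ ≤ 32 * (D : ℝ) ^ 2 * (finrank L0 N * Real.log (MM x)) := h1
      _ = _ := by ring
  exact le_of_mul_le_mul_left h3 hkN

end Pool.Agent.X186.MJ
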